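import Pool.Agent.P.MP_e0c037_lc.WP.Base
import Pool.Agent.P.MP_e0c037_lc.SG.Hard

/-! Hardness from two implemented weights, for all `q` other than zero and one. -/

namespace Pool.Agent.P.MP_e0c037_lc.WP

namespace Eng

open Finset Polynomial R3 SG.Hard Pool.Agent.Lib.helper21 Pool.Agent.Lib.helper77

theorem interp' (P : ℝ[X]) (N : ℕ) (hP : P.natDegree ≤ N) {η x : ℝ}
    (h : ∀ k : ℕ, k ≤ N → |P.eval (k : ℝ)| ≤ η) : |P.eval x| ≤ (N + 1) * ((|x| + N) ^ N * η) := by
  have e := Lagrange.eq_interpolate (s := range (N + 1)) (v := fun k : ℕ => (k : ℝ)) (f := P)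
    (Nat.cast_injective (R := ℝ)).injOn
    (degree_le_natDegree.trans_lt (by rw [card_range]; exact_mod_cast Nat.lt_succ_of_le hP))
  rw [e, Lagrange.interpolate_apply, eval_finsetSum]
  refine (abs_sum_le_sum_abs _ _).trans ((sum_le_card_nsmul _ _ ((|x| + N) ^ N * η)
    fun i hi => ?_).trans (by simp))
  rw [eval_mul, eval_C, abs_mul, mul_comm]
  refine mul_le_mul ?_ (h i (Nat.lt_succ_iff.1 (mem_range.1 hi))) (abs_nonneg _) (by positivity)
  rw [Lagrange.basis, eval_prod, abs_prod]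
  refine (prod_le_prod (g := fun _ => |x| + N) (fun _ _ => abs_nonneg _) fun j hj => ?_).trans
    (by rw [prod_const, card_erase_of_mem hi]; simp)
  have hj1 : (j : ℝ) ≤ N := by
    exact_mod_cast Nat.lt_succ_iff.1 (mem_range.1 (mem_erase.1 hj).2)
  have hj2 : (1 : ℝ) ≤ |(i : ℝ) - j| := by
    have : (1 : ℤ) ≤ |(i : ℤ) - j| := Int.one_le_abs (by have := (mem_erase.1 hj).1; omega)
    exact_mod_cast this
  simp only [Lagrange.basisDivisor, eval_mul, eval_C, eval_sub, eval_X, abs_mul, abs_inv]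
  refine (mul_le_of_le_one_left (abs_nonneg _) (inv_le_one_of_one_le₀ hj2)).trans ?_
  have : (0 : ℝ) ≤ j := j.cast_nonneg
  rw [abs_le]
  constructor <;> linarith [le_abs_self x, neg_abs_le x]

theorem rep_length (k : ℕ) (E : List (ℕ × ℕ)) : (rep k E).length = k * E.length := by
  simp [rep, List.length_flatMap]

theorem qB_odd (K n d : ℕ) (F : List (ℕ × ℕ × ℕ × ℕ)) : ∃ j, (qB K n d F).length = 2 * j + 1 := by
  rw [qB, eB, List.length_cons, List.length_append, rep_length, rep_length, mul_assoc, mul_assoc,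
    ← mul_add]
  exact ⟨_, rfl⟩

theorem odd_pos {s a Q : ℝ} (j : ℕ) (h : 0 < s * a * Q) : 0 < s * a ^ (2 * j + 1) * Q := by
  have ha1 : a ≠ 0 := by rintro rfl; simp at h
  rw [show s * a ^ (2 * j + 1) * Q = (a ^ j) ^ 2 * (s * a * Q) by ring]
  exact mul_pos (by positivity) h

theorem answers_map (σ : ℤ) (Q : List Bool × List ℤ → ℕ × List (ℕ × ℕ)) (O : ℕ × List (ℕ × ℕ) → ℤ)
    (x : List Bool) (i : ℕ) :
    (answers (fun t => Q (t.1, t.2.map fun b => σ * b)) O x i).map (fun b => σ * b) =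
      answers Q (fun G => σ * O G) x i := by
  induction i with
  | zero => rfl
  | succ i ih => simp only [answers, List.map_cons, ih]

theorem red_sign {f : List Bool → ℕ} {q v : ℝ} (σ : ℤ) (r : Polynomial ℕ)
    (Q : List Bool × List ℤ → ℕ × List (ℕ × ℕ)) (A : List Bool × List ℤ → ℤ) (pQ : PT Q) (pA : PT A)
    (hv : ∀ s, ∀ e ∈ (Q s).2, e.1 < (Q s).1 ∧ e.2 < (Q s).1)
    (h : ∀ x, A (x, answers Q (fun G => σ * signZ q v G) x (r.eval x.length)) = f x) :
    Reduces f q v := by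
  have pm : PT fun t : List Bool × List ℤ => (t.1, t.2.map fun b => σ * b) := by fun_prop
  refine ⟨r, fun t => Q (t.1, t.2.map fun b => σ * b), fun t => A (t.1, t.2.map fun b => σ * b),
    ?_, ?_, fun s => hv _, fun x => ?_⟩
  · rw [encState_eq, encGraph_eq]
    exact (pQ.comp pm).toTM2
  · rw [encState_eq]
    exact (pA.comp pm).toTM2
  · rw [← h x, ← answers_map]

theorem query_sign3 {n d : ℕ} {F : List (ℕ × ℕ × ℕ × ℕ)} {q v y z a0 a s : ℝ} {K nG nG' : ℕ}
    {G G' : List (ℕ × ℕ)} (hn : 0 < n) (hd : 0 < d)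
    (hF : ValF n d F) (hq : q ≠ 0 ∧ q ≠ 1) (hy : y ≤ -2) (hz : 0 < z) (h1 : z * y ^ 2 ≤ 1)
    (h2 : 1 ≤ (y ^ 2) ^ K * z) (ha : 0 < a0) (hG : Gad q v nG G a0 (a0 * z - a0))
    (ha' : 0 < s * a * (q * (q - 1))) (hG' : Gad q v nG' G' a (a * y - a))
    (hqK : |q| ≤ K) (hyK : 4 * |y| ≤ K * |q * (q - 1)|) :
    ValU (query2 G nG G' nG' K n d F).1 (query2 G nG G' nG' K n d F).2 ∧
    (1 / 2 ≤ Tw y n d F →
      0 < s * dichromatic (query2 G nG G' nG' K n d F).1 (query2 G nG G' nG' K n d F).2 q v) ∧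
    (Tw y n d F ≤ -1 / 2 →
      s * dichromatic (query2 G nG G' nG' K n d F).1 (query2 G nG G' nG' K n d F).2 q v < 0) := by
  have hN : 0 < n * d := Nat.mul_pos hn hd
  have vA : ValU (n * d + 2) (qA K n d F) := by
    refine List.forall_mem_append.2 ⟨ValU.rep (by simp [ValU]), ValU.rep ?_⟩
    refine List.forall_mem_flatMap.2 fun e he => ?_
    have := confl_val hF e he
    simp [tri]; omega
  have vS : ∀ s < 2, ValU (n * d + 2) (star s (n * d)) := fun s hs =>
    List.forall_mem_map.2 fun i hi => by have := List.mem_range.1 hi; dsimp only; omega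
  have vB : ValU (n * d + 2) (qB K n d F) :=
    List.forall_mem_cons.2 ⟨by dsimp only; omega, List.forall_mem_append.2
      ⟨(vS 0 (by omega)).rep, (vS 1 (by omega)).rep⟩⟩
  obtain ⟨b1, b2⟩ := gbuild hG hq vA
  have vB' : ValU (n * d + 2 + (qA K n d F).length * nG) (qB K n d F) :=
    vB.mono (Nat.le_add_right _ _)
  obtain ⟨c1, c2⟩ := gbuild hG' hq vB'
  refine ⟨List.forall_mem_append.2 ⟨c1, b1.mono (Nat.le_add_right _ _)⟩, ?_⟩
  have hv := (vA.U (a := a0) (b := a0 * z - a0)).append (vB.U (a := 1) (b := 1 * y - 1))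
  have e : dichromatic (query2 G nG G' nG' K n d F).1 (query2 G nG G' nG' K n d F).2 q v =
      a ^ (qB K n d F).length * Zw q (n * d + 2) (U a0 (a0 * z - a0) (qA K n d F) ++
        U 1 (1 * y - 1) (qB K n d F)) := by
    rw [← Zw_scale ((vA.U (a := a0) (b := a0 * z - a0)).append (vB.U (a := a) (b := a * y - a))) hv
      (fun l => by rw [Wt_append, Wt_append, Wt_U a y, Wt_U 1 y]; ring), ← b2 _ vB.U,
      Zw_congr (b1.U.append vB'.U) (vB'.U.append b1.U) (fun l => by rw [Wt_append, Wt_append]; ring),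
      ← c2 _ b1.U, ← U_append, dichromatic_eq]
    rfl
  have m := fun x => master_nat (g := gq K (n * d)) x hn hd hF hy hz h1 h2 ha rfl rfl rfl
  obtain ⟨P0, p1, p2⟩ := Zw_deg (n * d + 2) (U a0 (a0 * z - a0) (qA K n d F) ++
    U 1 (1 * y - 1) (qB K n d F))
  simp only [← Rq.eq_1, ← Pq.eq_1, ← Sq.eq_1, ← qA.eq_1, ← qB.eq_1, ← Zw_nat _ _ _ hv, p2] at m
  rw [e, p2]
  have hc : 0 < a0 ^ (qA K n d F).length := pow_pos ha _
  have hc' : 0 < s * a ^ (qB K n d F).length * (q * (q - 1)) := by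
    obtain ⟨j, hj⟩ := qB_odd K n d F
    exact hj ▸ odd_pos j ha'
  have hW : 0 < (y ^ 2) ^ (Pq K (n * d) (confl n d F).length * (n * d) + gq K (n * d) * n) *
      z ^ (Rq K (n * d) * (confl n d F).length) :=
    mul_pos (pow_pos (by nlinarith only [hy]) _) (pow_pos hz _)
  clear e b1 b2 c1 c2 p2 hv vA vB vB' vS hG hG'
  generalize a0 ^ (qA K n d F).length = c0 at *
  generalize a ^ (qB K n d F).length = c1 at *
  generalize (y ^ 2) ^ (Pq K (n * d) (confl n d F).length * (n * d) + gq K (n * d) * n) *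
    z ^ (Rq K (n * d) * (confl n d F).length) = W at *
  generalize Tw y n d F = T at *
  have e2 : gq K (n * d) =
    (n * d + 2) + (K + (n * d + 2)) * (n * d + 2) + (n * d + 2) * (n * d + 2) + K := rfl
  generalize gq K (n * d) = g at *
  have hN2 : 2 ≤ n * d + 2 := by omega
  generalize n * d + 2 = N at *
  have i1 := interp' (P0 - Polynomial.X * (Polynomial.X - 1) * C (c0 * W * T)) N
    ((natDegree_sub_le _ _).trans (max_le p1 (le_trans (by compute_degree) hN2)))
    (x := q) (η := N ^ N * (c0 * (|y| * (W / 2 ^ g)))) fun k hk => by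
      simp only [eval_sub, eval_mul, eval_X, eval_C, eval_one]
      exact (m k).trans (by gcongr)
  simp only [eval_sub, eval_mul, eval_X, eval_C, eval_one] at i1
  have t1 : ∀ k : ℕ, (k : ℝ) + 1 ≤ 2 ^ k := fun k => by exact_mod_cast Nat.lt_two_pow_self
  have i4 : 0 < |q * (q - 1)| := abs_pos.2 (mul_ne_zero hq.1 (sub_ne_zero.2 hq.2))
  have t2 : |y| ≤ 2 ^ K * (|q * (q - 1)| / 4) := by
    have := mul_le_mul_of_nonneg_right (show (K : ℝ) ≤ 2 ^ K by linarith [t1 K]) i4.le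
    linarith
  generalize q * (q - 1) = Q at *
  have i2 : (N + 1 : ℝ) * ((|q| + N) ^ N * (N ^ N * (c0 * (|y| * (W / 2 ^ g))))) ≤
      c0 * W * (|Q| / 4) := by
    calc _ ≤ (2 : ℝ) ^ N * ((2 ^ (K + N)) ^ N * ((2 ^ N) ^ N *
            (c0 * (2 ^ K * (|Q| / 4) * (W / 2 ^ g))))) := by
          have := t1 (K + N)
          push_cast at this
          gcongr
          · exact t1 N
          · linarith
          · linarith [t1 N]
      _ = c0 * W * (|Q| / 4) := by rw [e2]; field_simp; ring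
  have i3 := abs_le.1 (i1.trans i2)
  have i5 := mul_pos hc hW
  generalize c0 * W = V at *
  have i6 := mul_pos i5 i4
  rw [← mul_assoc]
  generalize s * c1 = c2 at *
  rcases lt_or_gt_of_ne (abs_pos.1 i4) with hQ | hQ
  · have hc2 : c2 < 0 := by
      by_contra hh
      nlinarith [mul_nonneg (not_lt.1 hh) (neg_pos.2 hQ).le]
    rw [abs_of_neg hQ] at i3 i6
    constructor <;> intro h
    · refine mul_pos_of_neg_of_neg hc2 ?_
      nlinarith [mul_le_mul_of_nonneg_left h i6.le]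
    · refine mul_neg_of_neg_of_pos hc2 ?_
      nlinarith [mul_le_mul_of_nonneg_left h i6.le]
  · have hc2 : 0 < c2 := (mul_pos_iff_of_pos_right hQ).1 hc'
    rw [abs_of_pos hQ] at i3 i6
    constructor <;> intro h
    · refine mul_pos hc2 ?_
      nlinarith [mul_le_mul_of_nonneg_left h i6.le]
    · refine mul_neg_of_pos_of_neg hc2 ?_
      nlinarith [mul_le_mul_of_nonneg_left h i6.le]

theorem core {q v a y a0 z : ℝ} {σ : ℤ} (hq : q ≠ 0 ∧ q ≠ 1) (hσ : σ = 1 ∨ σ = -1)
    (ha' : 0 < σ * a * (q * (q - 1))) (hy : y ≤ -2) (iy : Impl q v a (a * y - a)) (ha : 0 < a0)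
    (hz : 0 < z) (g1 : z * y ^ 2 ≤ 1) (iz : Impl q v a0 (a0 * z - a0)) : Hard q v := by
  obtain ⟨nG', G', hG'⟩ := iy
  obtain ⟨nG, G, hG⟩ := iz
  intro f hf
  obtain ⟨p, R, hR, hf⟩ := hf
  obtain ⟨d, n, F, pn, pF, hF, hc⟩ := R3.cl p R hR
  have hY : 4 ≤ y ^ 2 := by nlinarith
  have hQ0 : 0 < |q * (q - 1)| := abs_pos.2 (mul_ne_zero hq.1 (sub_ne_zero.2 hq.2))
  obtain ⟨K1, hK1⟩ := pow_unbounded_of_one_lt (1 / z) (by linarith : 1 < y ^ 2)
  obtain ⟨K2, hK2⟩ := exists_nat_ge (|q| + |y| + 4 * |y| / |q * (q - 1)|)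
  have g0 : 0 ≤ 4 * |y| / |q * (q - 1)| := by positivity
  have g00 := abs_nonneg q
  have g2 : 1 ≤ (y ^ 2) ^ (K1 + K2) * z := by
    rw [← div_le_iff₀ hz]
    exact hK1.le.trans (pow_le_pow_right₀ (by linarith) (by omega))
  have g3 : |q| ≤ (K1 + K2 : ℕ) := by push_cast; linarith [abs_nonneg y, K1.cast_nonneg (α := ℝ)]
  have g4 : |y| ≤ (K1 + K2 : ℕ) := by push_cast; linarith [K1.cast_nonneg (α := ℝ)]
  have g5 : 4 * |y| ≤ (K1 + K2 : ℕ) * |q * (q - 1)| := by
    rw [← div_le_iff₀ hQ0]; push_cast; linarith [abs_nonneg y, K1.cast_nonneg (α := ℝ)]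
  generalize K1 + K2 = K at *
  obtain ⟨B, hB⟩ := pn.bdNat
  have hs : ∀ x : List Bool, sz x = 4 * x.length + 1 := fun x => by
    induction x with
    | nil => rfl
    | cons b x ih => simp [ih]; omega
  let L : List Bool → ℕ := fun x => d * B.eval (4 * x.length + 1) + 2
  let M : List Bool → ℕ := fun x => L x + K
  have pL : PT L := ((PT.const d).mul (PT.poly (by fun_prop) B)).add (PT.const 2)
  have pM : PT M := pL.add (PT.const K)
  let Q : List Bool × List ℤ → ℕ × List (ℕ × ℕ) := fun s =>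
    query2 G nG G' nG' K (M s.1 + n s.1 + 1) (M s.1 + d + 3) (F2 (M s.1) (L s.1) (n s.1) d (F s.1)
      (decide (M s.1 ≤ s.2.length))
      (flags (cond (decide (M s.1 ≤ s.2.length)) (M s.1) 0) s.2 ++ [true]))
  have hQ := fun s : List Bool × List ℤ => query_sign3 (n := M s.1 + n s.1 + 1)
    (d := M s.1 + d + 3)
    (by omega) (by omega) (F2_val (L := L s.1) (h := decide (M s.1 ≤ s.2.length))
      (bits := flags (cond (decide (M s.1 ≤ s.2.length)) (M s.1) 0) s.2 ++ [true]) (hF s.1))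
    hq hy hz g1 g2 ha hG ha' hG' g3 g5
  let A0 : List Bool × List ℤ → ℤ := fun s =>
    R3.val (M s.1) (flags 0 s.2) - R3.val (M s.1) (flags (M s.1) s.2) + 2
  have pA : PT A0 := by unfold A0 R3.val flags; fun_prop
  refine red_sign σ
    (Polynomial.C 2 * (Polynomial.C d * B.comp (4 * Polynomial.X + 1) + 2 + Polynomial.C K)) Q
    (fun s => (((A0 s).natAbs / 4 : ℕ) : ℤ)) ?_ ?_ (fun s => (hQ s).1) fun x => ?_
  · have p1 : PT fun s : List Bool × List ℤ => F2 (M s.1) (L s.1) (n s.1) d (F s.1)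
        (decide (M s.1 ≤ s.2.length))
        (flags (cond (decide (M s.1 ≤ s.2.length)) (M s.1) 0) s.2 ++ [true]) := by
      unfold F2 ok alw fr flags; fun_prop
    have p2 : PT fun s : ℕ × ℕ × List (ℕ × ℕ × ℕ × ℕ) => confl s.1 s.2.1 s.2.2 := by
      unfold confl; fun_prop
    have p3 : PT fun s : ℕ × ℕ × List (ℕ × ℕ × ℕ × ℕ) => qA K s.1 s.2.1 s.2.2 := by
      unfold qA eA rep tri Sq Pq Rq gq; fun_prop
    have p5 : PT fun s : ℕ × ℕ × List (ℕ × ℕ × ℕ × ℕ) => qB K s.1 s.2.1 s.2.2 := by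
      unfold qB eB rep R3.star Pq Rq gq; fun_prop
    have p4 : PT fun s : ℕ × ℕ × List (ℕ × ℕ × ℕ × ℕ) =>
        query2 G nG G' nG' K s.1 s.2.1 s.2.2 := by
      unfold query2 build glue rl; fun_prop
    exact p4.comp (g := fun s : List Bool × List ℤ => (M s.1 + n s.1 + 1, M s.1 + d + 3, _))
      (PT.pair (by fun_prop) (PT.pair (by fun_prop) p1))
  · exact (PT.divMod (f := fun s => (A0 s).natAbs) (g := fun _ => 4) pA.absB.toZ (PT.const _)
      fun _ => by omega).fst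
  have e : Polynomial.eval x.length (Polynomial.C 2 * (Polynomial.C d *
      B.comp (4 * Polynomial.X + 1) + 2 + Polynomial.C K)) = M x + M x := by
    simp [M, L, Polynomial.eval_comp]; ring
  have hn : (nsol (n x) d (F x) : ℝ) * 4 ≤ 2 ^ L x := by
    have := hB x
    rw [hs] at this
    rw [pow_add]
    refine mul_le_mul (nsol_le.trans (pow_le_pow_right₀ one_le_two (Nat.mul_le_mul_left d this)))
      (by norm_num) (by norm_num) (by positivity)
  have hM : -y * 2 ^ L x ≤ 2 ^ M x := by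
    rw [show M x = L x + K from rfl, pow_add _ (L x), mul_comm]
    refine mul_le_mul_of_nonneg_left ((neg_le_abs _).trans (g4.trans ?_)) (by positivity)
    exact_mod_cast Nat.lt_two_pow_self.le
  have hp : (0 : ℝ) < 2 ^ L x := by positivity
  have hn0 : (0 : ℝ) ≤ nsol (n x) d (F x) := Nat.cast_nonneg _
  obtain ⟨O, hO⟩ : ∃ O : ℕ × List (ℕ × ℕ) → ℤ, O = fun G => σ * signZ q v G := ⟨_, rfl⟩
  have sg : ∀ G, (0 < σ * dichromatic G.1 G.2 q v → 0 < O G) ∧
      (σ * dichromatic G.1 G.2 q v < 0 → O G < 0) := fun G => by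
    rcases hσ with rfl | rfl
    · exact ⟨fun h => by simp [hO, signZ, sign_pos (by simpa using h : 0 < dichromatic G.1 G.2 q v)],
        fun h => by simp [hO, signZ, sign_neg (by simpa using h : dichromatic G.1 G.2 q v < 0)]⟩
    · exact ⟨fun h => by simp [hO, signZ, sign_neg (by simpa using h : dichromatic G.1 G.2 q v < 0)],
        fun h => by simp [hO, signZ, sign_pos (by simpa using h : 0 < dichromatic G.1 G.2 q v)]⟩
  rw [← hO]
  have s0 := search (Q := Q) (O := O) (x := x) (o := 0) (M := M x)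
    (T := -y * 2 ^ L x) (by nlinarith) hM fun a _ h => by
      obtain ⟨-, b1, b2⟩ := hQ (x, a)
      rw [F2_count _ (hF x) (Nat.le_add_right _ _) (by simp only [L]; omega)] at b1 b2
      simp only [show ¬ M x ≤ a.length by omega, decide_false, cond_false] at b1 b2
      exact ⟨fun h => (sg _).1
          (by simpa [Q, show ¬ M x ≤ a.length by omega] using b1 (by simp; linarith)),
        fun h => (sg _).2
          (by simpa [Q, show ¬ M x ≤ a.length by omega] using b2 (by simp; linarith))⟩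
  have s1 := search (Q := Q) (O := O) (x := x) (o := M x) (M := M x)
    (T := -y * 2 ^ L x - 4 * nsol (n x) d (F x)) (by nlinarith) (by linarith) fun a h _ => by
      obtain ⟨-, b1, b2⟩ := hQ (x, a)
      rw [F2_count _ (hF x) (Nat.le_add_right _ _) (by simp only [L]; omega)] at b1 b2
      simp only [h, decide_true, cond_true] at b1 b2
      exact ⟨fun h' => (sg _).1 (by simpa [Q, h] using b1 (by simp; linarith)),
        fun h' => (sg _).2 (by simpa [Q, h] using b2 (by simp; linarith))⟩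
  rw [zero_add, ← val_flags Q O x (M x) (M x)] at s0
  rw [e, hf, hc, ← nsol]
  simp only [A0]
  generalize R3.val (M x) (flags 0 (answers Q O x (M x + M x))) = u at *
  generalize R3.val (M x) (flags (M x) (answers Q O x (M x + M x))) = u' at *
  have t1 : (u : ℝ) - u' < 4 * nsol (n x) d (F x) + 2 := by linarith [s0.1, s1.2]
  have t2 : 4 * (nsol (n x) d (F x) : ℝ) - 2 < u - u' := by linarith [s0.2, s1.1]
  have t3 : u - u' < 4 * nsol (n x) d (F x) + 2 := by exact_mod_cast t1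
  have t4 : 4 * (nsol (n x) d (F x) : ℤ) - 2 < u - u' := by exact_mod_cast t2
  omega

end Eng

open R3

theorem p_Eng : S_Eng := by
  intro q v y z h0 h1 iy hy iz hz0 hz1
  have hq : q ≠ 0 ∧ q ≠ 1 := ⟨h0, h1⟩
  obtain ⟨j, hj⟩ := pow_unbounded_of_one_lt (2 : ℝ) (by nlinarith : 1 < y ^ 2)
  have hy2 : y ^ (2 * j + 1) ≤ -2 := by
    rw [pow_succ, pow_mul]
    nlinarith
  obtain ⟨a, ha, ia⟩ := iy.pow hq (2 * j)
  generalize y ^ (2 * j + 1) = Y at *
  have hY : 0 < Y ^ 2 := by nlinarith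
  have hz2 : z ^ 2 < 1 := by rw [← sq_abs]; nlinarith [abs_nonneg z]
  obtain ⟨i, hi⟩ := exists_pow_lt_of_lt_one (inv_pos.2 hY) hz2
  obtain ⟨b, hb, ib⟩ := iz.pow hq i
  have hZ : 0 < z ^ (i + 1) * z ^ (i + 1) := mul_self_pos.2 (pow_ne_zero _ hz0)
  have hZ1 : z ^ (i + 1) * z ^ (i + 1) * Y ^ 2 ≤ 1 := by
    have e : z ^ (i + 1) * z ^ (i + 1) = (z ^ 2) ^ i * z ^ 2 := by ring
    have h2 : (z ^ 2) ^ i * z ^ 2 ≤ (Y ^ 2)⁻¹ :=
      (mul_le_of_le_one_right (by positivity) hz2.le).trans hi.le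
    rw [e]
    exact (mul_le_mul_of_nonneg_right h2 hY.le).trans_eq (inv_mul_cancel₀ hY.ne')
  have i2 := ipar hq ib ib
  rw [show b * z ^ (i + 1) * (b * z ^ (i + 1)) = b * b * (z ^ (i + 1) * z ^ (i + 1)) by ring] at i2
  have hn : a * (q * (q - 1)) ≠ 0 := mul_ne_zero ha (mul_ne_zero h0 (sub_ne_zero.2 h1))
  rcases lt_or_gt_of_ne hn with h | h
  · exact Eng.core (σ := -1) hq (Or.inr rfl) (by push_cast; linarith) hy2 ia (mul_self_pos.2 hb)
      hZ hZ1 i2
  · exact Eng.core (σ := 1) hq (Or.inl rfl) (by push_cast; linarith) hy2 ia (mul_self_pos.2 hb)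
      hZ hZ1 i2

end Pool.Agent.P.MP_e0c037_lc.WP
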