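import Pool.Agent.P.MP_e0c037_lc.WP.Base

/-! Hardness weights for `0 < q < 2` from a weight above one and a weight below one. -/

namespace Pool.Agent.P.MP_e0c037_lc.WP

namespace Low

variable {q : ℝ} {I : ℝ → Prop}

theorem small {x ε : ℝ} (h0 : 0 < x) (h1 : x < 1) (hε : 0 < ε) :
    ∃ j : ℕ, 0 < x ^ (j + 1) ∧ x ^ (j + 1) < ε := by
  obtain ⟨j, hj⟩ := exists_pow_lt_of_lt_one hε h1
  refine ⟨j, by positivity, ?_⟩
  have : x ^ (j + 1) ≤ x ^ j := by
    rw [pow_succ]
    exact mul_le_of_le_one_right (by positivity) h1.le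
  linarith

theorem large {b : ℝ} (h1 : 1 < b) (M : ℝ) : ∃ j : ℕ, M < b ^ (j + 1) := by
  obtain ⟨j, hj⟩ := pow_unbounded_of_one_lt M h1
  refine ⟨j, hj.trans_le ?_⟩
  exact pow_le_pow_right₀ h1.le (by omega)

theorem neg_case (h0 : 0 < q) (h2 : q < 2) (h1 : q ≠ 1) (hc : Cl q I) (hb : Big I) {y : ℝ}
    (hy : I y) (hy0 : y < 0) : HC I := by
  obtain ⟨b, hbI, hb1⟩ := hb
  obtain ⟨j, hj⟩ := large hb1 (1 / (-y))
  have hbj : I (b ^ (j + 1)) := hc.pow hbI (by rw [abs_of_pos (by linarith)]; exact hb1.ne') j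
  have hlt : y * b ^ (j + 1) < -1 := by
    rw [div_lt_iff₀ (by linarith)] at hj
    linarith
  have hy1 : I (y * b ^ (j + 1)) := hc.par _ _ hy hbj (by linarith)
  refine ⟨⟨_, hy1, hlt⟩, ?_⟩
  generalize y * b ^ (j + 1) = w at hlt hy1
  have hx1 : X q w < 1 := X_lt h0 (by linarith)
  have hx0 : 0 < X q w := by
    have : q / (1 - w) < 1 := by rw [div_lt_one (by linarith)]; linarith
    unfold X
    linarith
  have hd : Dl q I (X q w) := hc.dl h0.ne' hy1
  have ha : 0 < |1 - q| := abs_pos.2 (sub_ne_zero.2 h1.symm)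
  obtain ⟨i, p1, p2⟩ := small hx0 hx1 (lt_min ha (show 0 < 1 - q / 2 by linarith))
  have hi := (hc.dual h0.ne').pow hd (by rw [abs_of_pos hx0]; exact hx1.ne) i
  generalize X q w ^ (i + 1) = e at p1 p2 hi
  have p3 : e < |1 - q| := p2.trans_le (min_le_left _ _)
  have p4 : e < 1 - q / 2 := p2.trans_le (min_le_right _ _)
  have p5 : 0 < 1 - e := by linarith
  refine ⟨_, hi.2, fun h => ?_, ?_⟩
  · have h' : q / (1 - e) = 1 := by unfold X at h; linarith
    rw [div_eq_one_iff_eq p5.ne'] at h'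
    rw [show 1 - q = e by linarith, abs_of_pos p1] at p3
    exact lt_irrefl _ p3
  · have a1 : 0 < q / (1 - e) := div_pos h0 p5
    have a2 : q / (1 - e) < 2 := by rw [div_lt_iff₀ p5]; linarith
    unfold X
    rw [abs_lt]
    constructor <;> linarith

theorem X_neg {t : ℝ} (ht : t < 1) (h : 1 - q < t) : X q t < 0 := by
  have : 1 < q / (1 - t) := by rw [one_lt_div (by linarith)]; linarith
  unfold X
  linarith

theorem pos_case (h0 : 0 < q) (h2 : q < 2) (h1 : q ≠ 1) (hc : Cl q I) (hb : Big I) {y : ℝ}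
    (hy : I y) (hy0 : 0 < y) (hy1 : y < 1) : ∃ w, I w ∧ w < 0 := by
  have hD := hc.dual h0.ne'
  have hp := fun j => hc.dl h0.ne' (hc.pow hy (by rw [abs_of_pos hy0]; exact hy1.ne) j)
  rcases lt_or_gt_of_ne h1 with hq | hq
  · obtain ⟨b, hbI, hb1⟩ := hb
    obtain ⟨i, hi⟩ := large hb1 2
    have hB := hc.dl h0.ne'
      (hc.pow hbI (by rw [abs_of_pos (by linarith)]; exact hb1.ne') i)
    generalize b ^ (i + 1) = B at hi hB
    have x1 : 1 < X q B := X_gt h0 (by linarith)
    have x2 : (1 - q) * X q B < 1 := by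
      have e := X_mul (q := q) (y := B) (by linarith)
      have : X q B - 1 < q := by nlinarith
      nlinarith
    generalize X q B = x at x1 x2 hB
    have c1 : (1 - q) / x < 1 - q := div_lt_self (by linarith) x1
    have c0 : 0 < (1 - q) / x := div_pos (by linarith) (by linarith)
    have c2 : (1 - q) / x * x = 1 - q := div_mul_cancel₀ _ (by linarith)
    generalize (1 - q) / x = c at c0 c1 c2
    have c3 : q / (1 - c) < 1 := by rw [div_lt_one (by linarith)]; linarith
    have c4 : 0 < q / (1 - c) := div_pos h0 (by linarith)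
    obtain ⟨j, p1, p2⟩ := small hy0 hy1 (show 0 < 1 - q / (1 - c) by linarith)
    have hj := hp j
    generalize y ^ (j + 1) = e at p1 p2 hj
    have p5 : 0 < 1 - e := by linarith
    have u1 : X q e < 1 - q := by
      have : q < q / (1 - e) := by rw [lt_div_iff₀ p5]; nlinarith
      unfold X
      linarith
    have u2 : c < X q e := by
      have h3 : q / (1 - c) < 1 - e := by linarith
      rw [div_lt_iff₀ (by linarith)] at h3
      have : q / (1 - e) < 1 - c := by rw [div_lt_iff₀ p5]; linarith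
      unfold X
      linarith
    generalize X q e = u at u1 u2 hj
    have t1 : u * x < 1 := by nlinarith
    have t2 : 1 - q < u * x := by nlinarith
    exact ⟨_, (hD.par _ _ hj hB t1.ne).2, X_neg t1 t2⟩
  · obtain ⟨j, p1, p2⟩ := small hy0 hy1 (show 0 < 1 - q / 2 by linarith)
    have hj := hp j
    generalize y ^ (j + 1) = e at p1 p2 hj
    have p5 : 0 < 1 - e := by linarith
    have u1 : X q e < 1 := X_lt h0 (by linarith)
    have u2 : -1 < X q e := by
      have : q / (1 - e) < 2 := by rw [div_lt_iff₀ p5]; linarith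
      unfold X
      linarith
    generalize X q e = u at u1 u2 hj
    have t1 : u * u < 1 := by nlinarith
    have t2 : 1 - q < u * u := by nlinarith
    exact ⟨_, (hD.par _ _ hj hj t1.ne).2, X_neg t1 t2⟩

end Low

open Low in
theorem p_Low : S_Low := by
  intro q I y h0 h2 h1 hc hb hy hy1
  have key : ∀ w, I w → w < 1 → w ≠ 0 → HC I := fun w hw hw1 hw0 => by
    rcases lt_or_gt_of_ne hw0 with h | h
    · exact neg_case h0 h2 h1 hc hb hw h
    · obtain ⟨z, hz, hz0⟩ := pos_case h0 h2 h1 hc hb hw h hw1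
      exact neg_case h0 h2 h1 hc hb hz hz0
  by_cases hy0 : y = 0
  · subst hy0
    have hd := hc.dl h0.ne' hy
    have e : X q 0 = 1 - q := by simp [X]
    rw [e] at hd
    have t1 : (1 - q) * (1 - q) < 1 := by nlinarith
    refine key _ ((hc.dual h0.ne').par _ _ hd hd t1.ne).2 (X_lt h0 t1) fun h => ?_
    have e2 := X_mul (q := q) t1.ne
    rw [h] at e2
    have : q * (q - 1) = 0 := by linarith
    rcases mul_eq_zero.1 this with h' | h'
    · exact h0.ne' h'
    · exact h1 (by linarith)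
  · exact key y hy hy1 hy0

end Pool.Agent.P.MP_e0c037_lc.WP
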