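import Mathlib

/-! The two sets of points used in the statement of the classification. -/

namespace Pool.Agent.P.MP_e0c037_lc.WP

/-- The points at which the sign problem is shown to be in polynomial time. -/
def EasyPt (q v : ℝ) : Prop :=
  (q ≤ 0 ∧ ((-2 ≤ v ∧ v ≤ 0) ∨ -q / 2 ≤ v)) ∨ (0 ≤ q ∧ 0 ≤ v) ∨ q = 0 ∨ q = 1 ∨
  (∃ r : ℝ, 1 / 3 ≤ r ∧ r < 1 ∧ q = (1 + r) ^ 2 * (1 - r) ∧ -1 - r ≤ v ∧ v ≤ r ^ 2 - 1) ∨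
  (0 < q ∧ q < 1 ∧ (v = -2 ∨ v = -q / 2)) ∨
  ((∃ k : ℕ, q = k) ∧ (v < -q ∨ -1 < v)) ∨
  (q = 2 ∧ (v = -1 ∨ v = -2)) ∨ (q = 4 ∧ v = -2) ∨
  (Real.exp 33488 ≤ q ∧ v ≤ -q)

/-- The points about which nothing is claimed. -/
def LeftPt (q v : ℝ) : Prop :=
  ((∀ k : ℕ, q ≠ k) ∧ 4 + 2 * √2 ≤ q ∧ q < Real.exp 33488 ∧ v ≤ -q) ∨
  (∃ k : ℕ, 3 ≤ k ∧ q = k ∧ (v = -1 ∨ (v = -q ∧ q < Real.exp 33488))) ∨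
  (0 < q ∧ q < 1 ∧ (((1 + v) ^ 2 = 1 - q / 2 ∧ v < -1) ∨ ((1 + v / 2) ^ 2 = 1 - q / 2 ∧ -2 < v)))

end Pool.Agent.P.MP_e0c037_lc.WP
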