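import Pool.Agent.P.MP_e0c037_lc.SG.Base
import Pool.Agent.P.MP_e0c037_lc.WP.Pts

/-! The classification on the whole plane: definitions and interface statements. -/

namespace Pool.Agent.P.MP_e0c037_lc.WP

open Finset Pool.Agent.Lib.helper21 SG

/-- The involution exchanging the two Tutte coordinates. -/
noncomputable def X (q t : ℝ) : ℝ := 1 - q / (1 - t)

/-- The weight `y` is implemented by a two-terminal graph. -/
def Im (q v y : ℝ) : Prop := ∃ a, a ≠ 0 ∧ R3.Impl q v a (a * y - a)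

/-- A set of weights closed under parallel and series composition. -/
structure Cl (q : ℝ) (I : ℝ → Prop) : Prop where
  ne : ∀ y, I y → y ≠ 1
  par : ∀ y z, I y → I z → y * z ≠ 1 → I (y * z)
  ser : ∀ y z, I y → I z → X q y * X q z ≠ 1 → I (X q (X q y * X q z))

/-- The set of the second coordinates. -/
def Dl (q : ℝ) (I : ℝ → Prop) (x : ℝ) : Prop := x ≠ 1 ∧ I (X q x)

/-- A weight above one. -/
def Big (I : ℝ → Prop) : Prop := ∃ y, I y ∧ 1 < y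

/-- The two weights needed for hardness. -/
def HC (I : ℝ → Prop) : Prop := (∃ y, I y ∧ y < -1) ∧ ∃ z, I z ∧ z ≠ 0 ∧ |z| < 1

/-- Hardness of the sign problem. -/
def Hard (q v : ℝ) : Prop := ∀ f, R3.SharpP f → R3.Reduces f q v

/-- Polynomial time, in the form of the final statement. -/
def InP (q v : ℝ) : Prop :=
  ∃ f : ℕ × List (ℕ × ℕ) → ℤ, Nonempty (Turing.TM2ComputableInPolyTime encGraph encInt f) ∧
    ∀ (n : ℕ) (L : List (ℕ × ℕ)), (∀ e ∈ L, e.1 < n ∧ e.2 < n) →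
      f (n, L) = (SignType.sign (dichromatic n L q v) : ℤ)

/-! ### Hardness -/

def S_Eng : Prop :=
  ∀ q v y z : ℝ, q ≠ 0 → q ≠ 1 → Im q v y → y < -1 → Im q v z → z ≠ 0 → |z| < 1 → Hard q v

def S_NegQ : Prop :=
  ∀ (q : ℝ) (I : ℝ → Prop) (y : ℝ), q < 0 → Cl q I → I y → (y < -1 ∨ X q y < -1) → HC I

def S_Low : Prop :=
  ∀ (q : ℝ) (I : ℝ → Prop) (y : ℝ), 0 < q → q < 2 → q ≠ 1 → Cl q I → Big I → I y → y < 1 → HC I

def S_Five : Prop :=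
  ∀ (q : ℝ) (I : ℝ → Prop), 0 < q → Cl q I → Big I → (∃ y, I y ∧ y < 0) →
    (∃ y, I y ∧ X q y < 0) → HC I

def S_High : Prop :=
  ∀ (q : ℝ) (I : ℝ → Prop) (y : ℝ), 2 ≤ q → Cl q I → I y → y < 0 → X q y < 0 →
    ¬ (y = -1 ∧ X q y = -1) → Big I

def S_One : Prop := ∀ (q : ℝ) (I : ℝ → Prop), 1 < q → q < 2 → Cl q I → I (-1) → Big I

def S_Iter : Prop :=
  ∀ (q η : ℝ) (I : ℝ → Prop) (y : ℝ), 0 < q → q < 2 → 0 < η → Cl q I → I y → |y| < 1 →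
    (∀ t, |y| ≤ t → t < 1 → (1 + t) ^ 2 * (1 - t) + η ≤ q) → (1 < q ∨ q ≠ 2 * (1 - y ^ 2)) → Big I

def S_Chrom : Prop :=
  ∀ q v y : ℝ, 2 < q → (∀ k : ℕ, q ≠ k) → Im q v y → 0 ≤ y → y < 1 → ∃ z, z < 0 ∧ Im q v z

def S_Flow : Prop :=
  ∀ q v : ℝ, 2 < q → q < 3 → v ≤ -q → ∃ z, Im q v z ∧ z ≠ 0 ∧ |z| < 1

/-- Hardness for `0 < q < 2`. -/
def S_HLow : Prop :=
  ∀ q v : ℝ, 0 < q → q < 2 → ¬ EasyPt q v → ¬ LeftPt q v → Hard q v

/-- Hardness for `q < 0` and `q ≥ 2`. -/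
def S_HRest : Prop :=
  ∀ q v : ℝ, (q < 0 ∨ 2 ≤ q) → ¬ EasyPt q v → ¬ LeftPt q v → Hard q v

/-! ### Algorithms -/

def S_R1 : Prop :=
  ∀ κ k (q v : ℝ), Orc κ k → q < 0 → -2 ≤ v → v ≤ 0 →
    ∃ f : Inp → ℤ, PT f ∧ ∀ G, Valid G →
      f G = (SignType.sign (Zk q (k G) (fun _ => v) (range G.2.length)) : ℤ)

def S_Dual2 : Prop :=
  ∀ (G : Inp) (q v : ℝ), q ≠ 0 → v ≠ 0 → dichromatic G.1 G.2 q v =
    (v / q) ^ G.2.length * Zk q (kd G) (fun _ => q / v) (range G.2.length)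

/-- The regions with an elementary sign rule. -/
def S_Triv : Prop :=
  ∀ q v : ℝ, ((q ≤ 0 ∧ ((-2 ≤ v ∧ v ≤ 0) ∨ -q / 2 ≤ v)) ∨ (0 ≤ q ∧ 0 ≤ v) ∨ q = 0 ∨ q = 1) →
    Easy q v

def S_Int : Prop :=
  ∀ (k : ℕ) (v : ℝ) (G : Inp), 1 ≤ k → Valid G →
    (-1 < v → 0 < dichromatic G.1 G.2 k v) ∧
    (v < -k → 0 < (-1) ^ G.2.length * dichromatic G.1 G.2 k v)

/-- The assignment `σ` satisfies a linear equation modulo two. -/
def Ev (σ : ℕ → Bool) (e : List ℕ × Bool) : Prop := e.1.countP σ % 2 = e.2.toNat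

def S_Lin : Prop :=
  ∃ sol : List (List ℕ × Bool) → Bool × List ℕ, PT sol ∧ ∀ D,
    ((∃ σ, ∀ e ∈ D, Ev σ e) → (sol D).1 = true) ∧
    ((sol D).1 = true → ∀ e ∈ D, Ev (fun i => memb i (sol D).2) e)

def S_Two : Prop := Easy 2 (-1) ∧ Easy 2 (-2)

def S_Four : Prop := Easy 4 (-2)

/-- The closed diamond. -/
def S_Dia : Prop :=
  ∀ r v : ℝ, 1 / 3 ≤ r → r < 1 → -1 - r ≤ v → v ≤ r ^ 2 - 1 → InP ((1 + r) ^ 2 * (1 - r)) v

end Pool.Agent.P.MP_e0c037_lc.WP
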