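import Pool.Agent.P.MP_e0c037_lc.WP.Base

/-! A negative weight from a weight in `[0, 1)` when `q > 2` is not an integer: the complete graph
with one edge removed. -/

namespace Pool.Agent.P.MP_e0c037_lc.WP

open Finset R3

namespace ChromAux

/-- Edges from `u` to the `n` vertices from `s` on. -/
def star (u s n : ℕ) : List (ℕ × ℕ) := (List.range n).map fun i => (u, i + s)

/-- The edge list with all vertices moved up by `s`. -/
def shift (s : ℕ) (E : List (ℕ × ℕ)) : List (ℕ × ℕ) := E.map fun e => (e.1 + s, e.2 + s)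

/-- The complete graph. -/
def KE : ℕ → List (ℕ × ℕ)
  | 0 => []
  | n + 1 => star 0 1 n ++ shift 1 (KE n)

/-- The complete graph on `n + 2` vertices without the edge `01`. -/
def GE (n : ℕ) : List (ℕ × ℕ) := star 0 2 n ++ (star 1 2 n ++ shift 2 (KE n))

theorem star_val {u s n : ℕ} (hu : u < n + s) : ValU (n + s) (star u s n) :=
  List.forall_mem_map.2 fun i hi => ⟨hu, by have := List.mem_range.1 hi; dsimp only; omega⟩

theorem shift_val {s n : ℕ} {E : List (ℕ × ℕ)} (h : ValU n E) : ValU (n + s) (shift s E) :=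
  List.forall_mem_map.2 fun e he => by have := h e he; dsimp only; omega

theorem KE_val (n : ℕ) : ValU n (KE n) := by
  induction n with
  | zero => intro e he; simp [KE] at he
  | succ n ih => exact List.forall_mem_append.2 ⟨star_val (by omega), shift_val ih⟩

theorem GE_val (n : ℕ) : ValU (n + 2) (GE n) :=
  List.forall_mem_append.2 ⟨star_val (by omega),
    List.forall_mem_append.2 ⟨star_val (by omega), shift_val (KE_val n)⟩⟩

theorem Wt_star {L l : List ℕ} {u s c : ℕ} (hu : L[u]? = some c) (hs : ∀ i, L[i + s]? = l[i]?) :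
    Wt (U 1 (-1) (star u s l.length)) L = if c ∈ l then 0 else 1 := by
  simp only [Wt, U, star, List.map_map, Function.comp_def, dl, hu, hs]
  split_ifs with h
  · obtain ⟨i, hi, e⟩ := List.getElem_of_mem h
    refine List.prod_eq_zero (List.mem_map.2 ⟨i, List.mem_range.2 hi, ?_⟩)
    rw [List.getElem?_eq_getElem hi, e, if_pos rfl]
    ring
  · refine List.prod_eq_one fun x hx => ?_
    obtain ⟨i, hi, rfl⟩ := List.mem_map.1 hx
    have hi' := List.mem_range.1 hi
    rw [List.getElem?_eq_getElem hi', if_neg fun e => h (by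
      rw [Option.some_inj.1 e]; exact List.getElem_mem hi')]
    ring

theorem Wt_KE (l : List ℕ) : Wt (U 1 (-1) (KE l.length)) l = if l.Nodup then 1 else 0 := by
  induction l with
  | nil => simp [KE, U]
  | cons c l ih =>
    have e : Wt (U 1 (-1) (shift 1 (KE l.length))) (c :: l) = Wt (U 1 (-1) (KE l.length)) l := by
      simp [Wt, U, dl, shift, Function.comp_def]
    rw [List.length_cons, KE, U_append, Wt_append, e, ih,
      Wt_star (c := c) (l := l) (by simp) (by simp)]
    by_cases h1 : c ∈ l <;> by_cases h2 : l.Nodup <;> simp [h1, h2]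

theorem Wt_GE (c c' : ℕ) (l : List ℕ) : Wt (U 1 (-1) (GE l.length)) (c :: c' :: l) =
    (if c ∈ l then 0 else 1) * ((if c' ∈ l then 0 else 1) * if l.Nodup then 1 else 0) := by
  have e : Wt (U 1 (-1) (shift 2 (KE l.length))) (c :: c' :: l) =
      Wt (U 1 (-1) (KE l.length)) l := by
    simp [Wt, U, dl, shift, Function.comp_def]
  rw [GE, U_append, U_append, Wt_append, Wt_append, e, Wt_KE,
    Wt_star (c := c) (l := l) (by simp) (by simp), Wt_star (c := c') (l := l) (by simp) (by simp)]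

theorem free {k : ℕ} {l : List ℕ} (h : l.Nodup) (hk : ∀ c ∈ l, c < k) :
    ∑ c ∈ range k, (if c ∈ l then (0 : ℝ) else 1) = k - l.length := by
  have e : ∀ c, (if c ∈ l then (0 : ℝ) else 1) = 1 - if c ∈ l.toFinset then 1 else 0 := fun c => by
    by_cases hc : c ∈ l <;> simp [hc]
  have s : l.toFinset ⊆ range k := fun c hc => mem_range.2 (hk c (List.mem_toFinset.1 hc))
  simp only [e, sum_sub_distrib, sum_ite_mem, inter_eq_right.2 s, sum_const, card_range,
    nsmul_eq_mul, mul_one, List.toFinset_card_of_nodup h]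

theorem count_nodup (k n : ℕ) :
    SL k n (fun l => if l.Nodup then 1 else 0) = ∏ i ∈ range n, ((k : ℝ) - i) := by
  induction n with
  | zero => simp [SL]
  | succ n ih =>
    rw [prod_range_succ, ← ih, mul_comm, ← SL_mul, SL, ← SL_sum]
    refine SL_congr fun l h1 h2 => ?_
    by_cases h : l.Nodup
    · rw [if_pos h, mul_one, ← h1, ← free h h2]
      exact sum_congr rfl fun c _ => by by_cases hc : c ∈ l <;> simp [hc, h]
    · simp [h]

theorem Z0 (x : ℝ) (n : ℕ) :
    Zw x (n + 2) (U 1 (-1) (GE n)) = (x - n) ^ 2 * ∏ i ∈ range n, (x - i) := by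
  have hp : R3.IsPoly fun x : ℝ => ∏ i ∈ range n, (x - i) :=
    ⟨∏ i ∈ range n, (Polynomial.X - Polynomial.C (i : ℝ)), fun x => by
      simp [Polynomial.eval_prod]⟩
  refine poly_ext (f := fun x => Zw x _ _) (g := fun x => (x - n) ^ 2 * ∏ i ∈ range n, (x - i))
    (by fun_prop) (R3.IsPoly.mul (by fun_prop) hp) (fun k _ => ?_) x
  rw [Zw_nat _ _ _ (GE_val n).U, ← count_nodup, ← SL_mul]
  simp only [SL, ← SL_sum]
  refine SL_congr fun l h1 h2 => ?_
  subst h1
  simp only [Wt_GE, ← mul_sum, ← sum_mul]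
  by_cases h : l.Nodup
  · rw [free h h2]; ring
  · simp [h]

theorem Z1 (x : ℝ) (n : ℕ) :
    Zw x (n + 2) (U 1 (-1) (GE n) ++ [(0, 1, 0, 1)]) = (x - n) * ∏ i ∈ range n, (x - i) := by
  have hp : R3.IsPoly fun x : ℝ => ∏ i ∈ range n, (x - i) :=
    ⟨∏ i ∈ range n, (Polynomial.X - Polynomial.C (i : ℝ)), fun x => by
      simp [Polynomial.eval_prod]⟩
  refine poly_ext (f := fun x => Zw x _ _) (g := fun x => (x - n) * ∏ i ∈ range n, (x - i))
    (by fun_prop) (R3.IsPoly.mul (by fun_prop) hp) (fun k _ => ?_) x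
  rw [Zw_nat _ _ _ ((GE_val n).U.append (Val.nil.cons (by omega) (by omega))), ← count_nodup,
    ← SL_mul]
  simp only [SL, ← SL_sum]
  refine SL_congr fun l h1 h2 => ?_
  subst h1
  by_cases h : l.Nodup
  · rw [if_pos h, mul_one, ← free h h2]
    refine sum_congr rfl fun c hc => ?_
    rw [sum_eq_single_of_mem c hc fun c' _ hc' => by simp [dl, hc'.symm]]
    by_cases hl : c ∈ l <;> simp [Wt_GE, dl, h, hl]
  · simp [Wt_GE, h]

variable {N : ℕ} {E : List (ℕ × ℕ)} {F : List WE}

theorem cont (q : ℝ) (hE : ValU N E) (hF : Val N F) :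
    Continuous fun s : ℝ => Zw q N (U 1 (s - 1) E ++ F) := by
  induction E generalizing F with
  | nil => simpa [U] using continuous_const
  | cons e E ih =>
    obtain ⟨h1, h2⟩ := List.forall_mem_cons.1 hE
    have e1 : ∀ s : ℝ, Zw q N (U 1 (s - 1) (e :: E) ++ F) = 1 * Zw q N (U 1 (s - 1) E ++ F) +
        (s - 1) * Zw q N (U 1 (s - 1) E ++ ((e.1, e.2, 0, 1) :: F)) := fun s => by
      have h3 : Val N (U 1 (s - 1) E ++ F) := (ValU.U h2).append hF
      rw [← Zw_congr (h3.cons (a := 0) (b := 1) h1.1 h1.2)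
        ((ValU.U h2).append (hF.cons h1.1 h1.2)) (fun l => by simp; ring), ← Zw_cons h3 h1.1 h1.2]
      rfl
    simp only [e1]
    exact (continuous_const.mul (ih h2 hF)).add
      ((continuous_id.sub continuous_const).mul (ih h2 (hF.cons h1.1 h1.2)))

theorem scale (q a t : ℝ) (hE : ValU N E) (hF : Val N F) :
    Zw q N (U a (a * t - a) E ++ F) = a ^ E.length * Zw q N (U 1 (t - 1) E ++ F) := by
  have e : ∀ l, Wt (U a (a * t - a) E) l = a ^ E.length * Wt (U 1 (t - 1) E) l := fun l => by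
    clear hE
    induction E with
    | nil => simp [U]
    | cons e E ih =>
      change Wt ((e.1, e.2, a, a * t - a) :: U a (a * t - a) E) l =
        _ * Wt ((e.1, e.2, 1, t - 1) :: U 1 (t - 1) E) l
      rw [Wt_cons, Wt_cons, ih, List.length_cons]
      ring
  refine poly_ext (f := fun x => Zw x _ _) (g := fun x => a ^ E.length * Zw x _ _)
    (by fun_prop) (by fun_prop) (fun k _ => ?_) q
  rw [Zw_nat _ _ _ (hE.U.append hF), Zw_nat _ _ _ (hE.U.append hF), ← SL_mul]
  exact SL_congr fun l _ _ => by rw [Wt_append, Wt_append, e, mul_assoc]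

end ChromAux

open ChromAux

theorem p_Chrom : S_Chrom := by
  intro q v y hq hn h hy0 hy1
  have hq0 : 0 < q := by linarith
  have hq' : q ≠ 0 ∧ q ≠ 1 := ⟨hq0.ne', (by linarith : 1 < q).ne'⟩
  set n := ⌊q⌋₊
  have h1 : (n : ℝ) < q := lt_of_le_of_ne (Nat.floor_le hq0.le) (hn n).symm
  have h2 : q < n + 1 := Nat.lt_floor_add_one q
  have hD : 0 < ∏ i ∈ range n, (q - i) := prod_pos fun i hi => by
    have : (i : ℝ) < n := by exact_mod_cast mem_range.1 hi
    linarith
  have hG := GE_val n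
  have hF : Val (n + 2) [(0, 1, 0, 1)] := Val.nil.cons (by omega) (by omega)
  have c0 := cont q hG Val.nil
  have c1 := cont q hG hF
  have hl : Filter.Tendsto (fun j : ℕ => y ^ (j + 1)) Filter.atTop (nhds 0) :=
    (tendsto_pow_atTop_nhds_zero_of_lt_one hy0 hy1).comp (Filter.tendsto_add_atTop_nat 1)
  have l0 : Zw q (n + 2) (U 1 (0 - 1) (GE n) ++ []) -
      Zw q (n + 2) (U 1 (0 - 1) (GE n) ++ [(0, 1, 0, 1)]) < 0 := by
    rw [zero_sub, List.append_nil, Z0, Z1]
    have := mul_pos (mul_pos (sub_pos.2 h1) (sub_pos.2 h2)) hD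
    linarith
  have l1 : 0 < Zw q (n + 2) (U 1 (0 - 1) (GE n) ++ [(0, 1, 0, 1)]) := by
    rw [zero_sub, Z1]
    exact mul_pos (sub_pos.2 h1) hD
  obtain ⟨j, j0, j1⟩ := ((((c0.sub c1).tendsto 0).comp hl).eventually (gt_mem_nhds l0)).and
    (((c1.tendsto 0).comp hl).eventually (lt_mem_nhds l1)) |>.exists
  simp only [Function.comp, Pi.sub_apply] at j0 j1
  obtain ⟨a, ha, hi⟩ := h.pow hq' j
  generalize y ^ (j + 1) = t at *
  have s0 := scale q a t hG Val.nil
  have s1 := scale q a t hG hF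
  rw [List.append_nil] at s0
  have hc : a ^ (GE n).length ≠ 0 := pow_ne_zero _ ha
  generalize a ^ (GE n).length = c at *
  generalize Zw q (n + 2) (U 1 (t - 1) (GE n) ++ []) = A at *
  generalize Zw q (n + 2) (U 1 (t - 1) (GE n) ++ [(0, 1, 0, 1)]) = B at *
  have hq1 : 0 < q - 1 := by linarith
  have hA : A - B ≠ 0 := j0.ne
  refine ⟨(q - 1) * B / (A - B), div_neg_of_pos_of_neg (mul_pos hq1 j1) j0,
    c * (A - B) / (q * (q - 1)), div_ne_zero (mul_ne_zero hc hA) (mul_pos hq0 hq1).ne', ?_⟩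
  refine of_gadget hq' (hG.U (a := a) (b := a * t - a)) ?_ ?_ ?_
  · simp only [U, List.forall_mem_map]
    exact fun _ _ => hi
  · rw [s0]
    field_simp
    ring
  · rw [Zw_congr (hG.U.cons (by omega) (by omega)) (hG.U.append hF) (fun l => by simp; ring), s1]
    field_simp
    ring

end Pool.Agent.P.MP_e0c037_lc.WP
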