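import Pool.Agent.P.MP_e0c037_lc.WP.Base

/-! A small weight below the line `v = -q` for `2 < q < 3`. -/

namespace Pool.Agent.P.MP_e0c037_lc.WP

open Finset R3

namespace Flow

theorem sum_mark {k c d : ℕ} (hc : c ∈ range k) (hd : d ∈ range k) (f : ℝ → ℝ → ℝ) :
    ∑ e ∈ range k, f (if e = c then 1 else 0) (if e = d then 1 else 0) =
      if c = d then f 1 1 + (k - 1) * f 0 0 else f 1 0 + f 0 1 + (k - 2) * f 0 0 := by
  have : ∀ e, f (if e = c then 1 else 0) (if e = d then 1 else 0) =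
      f 0 0 + (if e = c then (if c = d then f 1 1 - f 0 0 else f 1 0 - f 0 0) else 0) +
        (if e = d then (if c = d then 0 else f 0 1 - f 0 0) else 0) := by
    intro e
    by_cases h1 : e = c <;> by_cases h2 : e = d <;> by_cases h3 : c = d <;>
      simp only [h1, h2, h3, if_true, if_false] <;> first | ring1 | skip
    all_goals simp_all
  simp only [this, sum_add_distrib, sum_ite_eq', hc, hd, if_true, sum_const, card_range,
    nsmul_eq_mul]
  split_ifs <;> ring

/-- The weight of the gadget for different colours. -/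
def fA (x a b : ℝ) : ℝ :=
  (a + b) * (2 * (a + b) ^ 2 * a ^ 2 + (x - 2) * a ^ 4) +
    a * (2 * (a + b) ^ 2 * a ^ 2 + 4 * (x - 2) * (a + b) * a ^ 3 + (x - 2) * (x - 3) * a ^ 4)

/-- The weight of the gadget for equal colours. -/
def fC (x a b : ℝ) : ℝ :=
  (a + b) * ((a + b) ^ 4 + (x - 1) * a ^ 4) +
    (x - 1) * a * (2 * (a + b) ^ 2 * a ^ 2 + (x - 2) * a ^ 4)

/-- The complete graph on four vertices without one edge. -/
def K (a b : ℝ) : List WE := [(0, 2, a, b), (0, 3, a, b), (1, 2, a, b), (1, 3, a, b), (2, 3, a, b)]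

theorem K_val (a b : ℝ) : Val 4 (K a b) := by simp [Val, K]

theorem pair_sum (k : ℕ) (α β W : ℝ) (g : ℕ → ℝ) :
    ∑ c ∈ range k, ∑ d ∈ range k, (α + β * if c = d then 1 else 0) * (g c * g d * W) =
      W * (α * (∑ c ∈ range k, g c) ^ 2 + β * ∑ c ∈ range k, g c * g c) := by
  have : ∀ c ∈ range k, ∑ d ∈ range k, (α + β * if c = d then 1 else 0) * (g c * g d * W) =
      W * α * (g c * ∑ d ∈ range k, g d) + W * β * (g c * g c) := by
    intro c hc
    have : ∀ d, (α + β * if c = d then 1 else 0) * (g c * g d * W) =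
        W * α * (g c * g d) + if c = d then W * β * (g c * g d) else 0 := fun d => by
      split_ifs <;> ring
    simp only [this, sum_add_distrib, sum_ite_eq, hc, if_true, ← mul_sum]
  rw [sum_congr rfl this]
  simp only [sum_add_distrib, ← mul_sum, ← sum_mul]
  ring

theorem Zw_K (x a b α β : ℝ) : Zw x 4 ((0, 1, α, β) :: K a b) =
    α * (x * (x - 1) * fA x a b + x * fC x a b) + β * (x * fC x a b) := by
  refine poly_ext (f := fun x => Zw x _ _)
    (g := fun x => α * (x * (x - 1) * fA x a b + x * fC x a b) + β * (x * fC x a b))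
    (by fun_prop) (by unfold fA fC; fun_prop) (fun k _ => ?_) x
  rw [Zw_nat _ _ _ ((K_val a b).cons (by omega) (by omega))]
  simp only [SL, K, Wt_cons, Wt_nil, dl, List.getElem?_cons_succ, List.getElem?_cons_zero,
    Option.some_inj]
  have e1 : ∀ F : ℕ → ℕ → ℕ → ℕ → ℝ,
      ∑ c ∈ range k, ∑ d ∈ range k, ∑ s ∈ range k, ∑ t ∈ range k, F c d s t =
      ∑ s ∈ range k, ∑ t ∈ range k, ∑ c ∈ range k, ∑ d ∈ range k, F c d s t := by
    intro F
    calc _ = ∑ c ∈ range k, ∑ s ∈ range k, ∑ t ∈ range k, ∑ d ∈ range k, F c d s t :=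
          sum_congr rfl fun c _ => sum_comm.trans (sum_congr rfl fun s _ => sum_comm)
      _ = _ := sum_comm.trans (sum_congr rfl fun s _ => sum_comm)
  rw [e1]
  have e2 : ∀ s ∈ range k, ∀ t ∈ range k, ∑ c ∈ range k, ∑ d ∈ range k,
      (α + β * if c = d then 1 else 0) * ((a + b * if c = s then 1 else 0) *
        ((a + b * if c = t then 1 else 0) * ((a + b * if d = s then 1 else 0) *
          ((a + b * if d = t then 1 else 0) * ((a + b * if s = t then 1 else 0) * 1))))) =
      if s = t then (a + b) * (α * ((a + b) ^ 2 + (k - 1) * a ^ 2) ^ 2 +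
          β * ((a + b) ^ 4 + (k - 1) * a ^ 4))
      else a * (α * (2 * (a + b) * a + (k - 2) * a ^ 2) ^ 2 +
          β * (2 * (a + b) ^ 2 * a ^ 2 + (k - 2) * a ^ 4)) := by
    intro s hs t ht
    have h := pair_sum k α β (a + b * if s = t then 1 else 0)
      fun c => (a + b * if c = s then 1 else 0) * (a + b * if c = t then 1 else 0)
    rw [sum_mark hs ht fun i j => (a + b * i) * (a + b * j),
      sum_mark hs ht fun i j => (a + b * i) * (a + b * j) * ((a + b * i) * (a + b * j))] at h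
    refine (sum_congr rfl fun c _ => sum_congr rfl fun d _ => by ring).trans (h.trans ?_)
    split_ifs <;> ring
  rw [sum_congr rfl fun s hs => sum_congr rfl (e2 s hs), sum_two]
  unfold fA fC
  ring

theorem impl_K {q v a b : ℝ} (hq : q ≠ 0 ∧ q ≠ 1) (h : Impl q v a b) :
    Impl q v (fA q a b) (fC q a b - fA q a b) := by
  have hL : Val (2 + 2) (K a b) := K_val a b
  refine of_gadget hq hL (by simp [K, h]) ?_ ?_
  · rw [Zw_congr hL (hL.cons (u := 0) (w := 1) (a := 1) (b := 0) (by omega) (by omega))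
      (fun l => by simp), Zw_K]
    ring
  · rw [Zw_K]
    ring

end Flow

open WP.Flow in
theorem p_Flow (h : S_Five) : S_Flow := by
  intro q v h2 h3 hv
  have hq0 : 0 < q := by linarith
  have hq : q ≠ 0 ∧ q ≠ 1 := ⟨hq0.ne', by linarith⟩
  have hc := cl_im (v := v) hq
  have hy : Im q v (1 + v) ∧ 1 + v ≠ 1 := ⟨Im.base, by linarith⟩
  have hv0 : v < 0 := by linarith
  have hx0 : 0 ≤ X q (1 + v) := by
    rw [X_base]
    have : -1 ≤ q / v := by rw [le_div_iff_of_neg hv0]; linarith
    linarith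
  have hx1 : X q (1 + v) < 1 := X_lt hq0 (by linarith)
  have hd := hc.dl hq.1 hy
  set x := X q (1 + v)
  have hl : Filter.Tendsto (fun j : ℕ => x ^ (j + 1)) Filter.atTop (nhds 0) :=
    (tendsto_pow_atTop_nhds_zero_of_lt_one hx0 hx1).comp (Filter.tendsto_add_atTop_nat 1)
  have cA : Continuous fun s : ℝ => fA q (s - 1) q := by unfold fA; fun_prop
  have cC : Continuous fun s : ℝ => fC q (s - 1) q := by unfold fC; fun_prop
  have g2 : 0 < q - 2 := by linarith
  have v1 : 0 < fA q (0 - 1) q := by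
    rw [show fA q (0 - 1) q = 2 * q ^ 2 * (q - 2) by unfold fA; ring]; positivity
  have v2 : 0 < fA q (0 - 1) q - fC q (0 - 1) q := by
    have : 0 < 3 - q := by linarith
    rw [show fA q (0 - 1) q - fC q (0 - 1) q = q ^ 3 * (q - 2) * (3 - q) by unfold fA fC; ring]
    positivity
  have v3 : 0 < (q - 1) * fA q (0 - 1) q + fC q (0 - 1) q := by
    have : 0 < q - 1 := by linarith
    rw [show (q - 1) * fA q (0 - 1) q + fC q (0 - 1) q = q ^ 3 * (q - 1) * (q - 2) by
      unfold fA fC; ring]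
    positivity
  have t1 := ((cA.tendsto 0).comp hl).eventually (lt_mem_nhds v1)
  have t2 := (((cA.sub cC).tendsto 0).comp hl).eventually (lt_mem_nhds v2)
  have t3 := ((((continuous_const (y := q - 1)).mul cA).add cC).tendsto 0).comp hl |>.eventually
    (lt_mem_nhds v3)
  obtain ⟨j, j1, j2, j3⟩ := (t1.and (t2.and t3)).exists
  simp only [Function.comp, Pi.mul_apply, Pi.add_apply, Pi.sub_apply] at j1 j2 j3
  obtain ⟨e1, ⟨a, ha, hi⟩, -⟩ := (hc.dual hq.1).pow hd (by rw [abs_of_nonneg hx0]; exact hx1.ne) j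
  generalize x ^ (j + 1) = e at *
  have e2 : e - 1 ≠ 0 := sub_ne_zero.2 e1
  have e3 : 1 - e ≠ 0 := sub_ne_zero.2 e1.symm
  obtain ⟨l, rfl⟩ : ∃ l, a = l * (e - 1) := ⟨a / (e - 1), by field_simp⟩
  have hl0 : l ≠ 0 := left_ne_zero_of_mul ha
  rw [show l * (e - 1) * X q e - l * (e - 1) = l * q by unfold X; field_simp; ring] at hi
  have hK := impl_K hq hi
  rw [show fA q (l * (e - 1)) (l * q) = l ^ 5 * fA q (e - 1) q by unfold fA; ring,
    show fC q (l * (e - 1)) (l * q) = l ^ 5 * fC q (e - 1) q by unfold fC; ring] at hK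
  generalize fA q (e - 1) q = A at *
  generalize fC q (e - 1) q = C at *
  have hz : Im q v (C / A) :=
    ⟨l ^ 5 * A, mul_ne_zero (pow_ne_zero _ hl0) j1.ne', by
      rwa [show l ^ 5 * A * (C / A) = l ^ 5 * C by field_simp]⟩
  have hz1 : C / A < 1 := (div_lt_one j1).2 (by linarith)
  have hz2 : X q (C / A) < 0 := by
    rw [show X q (C / A) = -(((q - 1) * A + C) / (A - C)) by unfold X; field_simp; ring]
    exact neg_neg_of_pos (div_pos j3 j2)
  obtain ⟨-, z, z1, z2, z3⟩ := h q _ hq0 hc (hc.big hy (by rw [abs_of_neg (by linarith)]; linarith))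
    ⟨_, hy, by linarith⟩ ⟨_, ⟨hz, hz1.ne⟩, hz2⟩
  exact ⟨z, z1.1, z2, z3⟩

end Pool.Agent.P.MP_e0c037_lc.WP
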