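import Pool.Agent.P.MP_e0c037_lc.WP.Base

/-! The point `q = 4`, `v = -2`: colours are pairs of bits and the sum is a Gauss sum. -/

namespace Pool.Agent.P.MP_e0c037_lc.WP

open Finset Pool.Agent.Lib.helper21 SG

namespace Four

/-- The sign character. -/
def ch (x : ZMod 2) : ℝ := if x = 0 then 1 else -1

theorem ch_add (x y : ZMod 2) : ch (x + y) = ch x * ch y := by
  have h : ∀ x y : ZMod 2, x + y = 0 ↔ (x = 0 ↔ y = 0) := by decide
  unfold ch
  by_cases hx : x = 0 <;> by_cases hy : y = 0 <;> simp [h, hx, hy]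

theorem ch_edge (a b c d : ZMod 2) : (1 : ℝ) + -2 * (if (a, c) = (b, d) then 1 else 0) =
    ch ((1 + a + b) + (1 + a + b) * (c + d)) := by
  have h : ∀ a b c d : ZMod 2, (1 + a + b) + (1 + a + b) * (c + d) = 0 ↔ ¬ (a, c) = (b, d) := by
    decide
  unfold ch
  by_cases e : (a, c) = (b, d)
  · rw [if_pos e, if_neg (by rw [h]; exact not_not.2 e)]; norm_num
  · rw [if_neg e, if_pos ((h _ _ _ _).2 e)]; norm_num

/-- The number of edges with equal first bits. -/
def Mq (L : List (ℕ × ℕ)) (σ : ℕ → ZMod 2) : ZMod 2 := (L.map fun e => 1 + σ e.1 + σ e.2).sum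

/-- The part that is linear in the second bits. -/
def Bq (L : List (ℕ × ℕ)) (σ τ : ℕ → ZMod 2) : ZMod 2 :=
  (L.map fun e => (1 + σ e.1 + σ e.2) * (τ e.1 + τ e.2)).sum

variable {n : ℕ} {L : List (ℕ × ℕ)} {σ σ' τ τ' : ℕ → ZMod 2}

theorem Bq_add : Bq L σ (τ + τ') = Bq L σ τ + Bq L σ τ' := by
  unfold Bq
  induction L with
  | nil => simp
  | cons e L ih =>
    simp only [List.map_cons, List.sum_cons, Pi.add_apply] at ih ⊢
    linear_combination ih

theorem Mq_add : Mq L σ + Mq L σ' = Bq L σ (σ + σ') + Bq L σ' (σ + σ') := by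
  have h : ∀ a b c d : ZMod 2, (1 + a + b) + (1 + c + d) =
      (1 + a + b) * (a + c + (b + d)) + (1 + c + d) * (a + c + (b + d)) := by decide
  unfold Bq Mq
  induction L with
  | nil => simp
  | cons e L ih =>
    simp only [List.map_cons, List.sum_cons, Pi.add_apply] at ih ⊢
    linear_combination ih + h (σ e.1) (σ e.2) (σ' e.1) (σ' e.2)

theorem Mq_eq (h : ∀ τ, Bq L σ τ = 0) (h' : ∀ τ, Bq L σ' τ = 0) : Mq L σ = Mq L σ' := by
  have h1 : ∀ x y : ZMod 2, x + y = 0 → x = y := by decide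
  exact h1 _ _ (by rw [Mq_add, h, h', add_zero])

theorem Bq_congr (hL : ∀ e ∈ L, e.1 < n ∧ e.2 < n) (h : ∀ i < n, σ i = σ' i)
    (h' : ∀ i < n, τ i = τ' i) : Bq L σ τ = Bq L σ' τ' := by
  unfold Bq
  congr 1
  refine List.map_congr_left fun e he => ?_
  rw [h _ (hL e he).1, h _ (hL e he).2, h' _ (hL e he).1, h' _ (hL e he).2]

/-- The indicator of a vertex. -/
def de (v : ℕ) : ℕ → ZMod 2 := fun i => if i = v then 1 else 0

theorem Bq_sum (hL : ∀ e ∈ L, e.1 < n ∧ e.2 < n) :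
    Bq L σ τ = ∑ v ∈ range n, τ v * Bq L σ (de v) := by
  unfold Bq
  induction L with
  | nil => simp
  | cons e L ih =>
    obtain ⟨⟨h1, h2⟩, h3⟩ := List.forall_mem_cons.1 hL
    have h4 : ∀ i < n, ∑ v ∈ range n, τ v * de v i = τ i := fun i hi => by
      simp [de, hi]
    simp only [List.map_cons, List.sum_cons, ih h3, mul_add (τ _), sum_add_distrib]
    congr 1
    rw [← h4 _ h1, ← h4 _ h2, ← sum_add_distrib, mul_sum]
    exact sum_congr rfl fun v _ => by ring

/-- Extension by zero. -/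
def ex (s : Fin n → ZMod 2) : ℕ → ZMod 2 := fun i => if h : i < n then s ⟨i, h⟩ else 0

theorem ex_add (s t : Fin n → ZMod 2) : ex (s + t) = ex s + ex t := by
  funext i
  simp only [ex, Pi.add_apply]
  split_ifs <;> simp

theorem ex_res (τ : ℕ → ZMod 2) : ∀ i < n, ex (fun j : Fin n => τ j) i = τ i := fun i hi => by
  simp [ex, hi]

open Classical in
theorem sum_t (hL : ∀ e ∈ L, e.1 < n ∧ e.2 < n) : ∑ t : Fin n → ZMod 2, ch (Bq L σ (ex t)) =
    if ∀ τ, Bq L σ τ = 0 then 2 ^ n else 0 := by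
  split_ifs with h
  · simp [h, ch]
  · obtain ⟨τ, hτ⟩ := not_forall.1 h
    rw [← Bq_congr hL (fun _ _ => rfl) (ex_res τ)] at hτ
    have e := Equiv.sum_comp (Equiv.addRight fun j : Fin n => τ j) fun t => ch (Bq L σ (ex t))
    simp only [Equiv.coe_addRight, ex_add, Bq_add, ch_add] at e
    rw [← sum_mul, show ch (Bq L σ (ex fun j : Fin n => τ j)) = -1 from if_neg hτ] at e
    linarith

theorem wt_eq (hL : ∀ e ∈ L, e.1 < n ∧ e.2 < n) (ε : ZMod 2 × ZMod 2 ≃ Fin 4)
    (s t : Fin n → ZMod 2) :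
    R3.Wt (L.map fun e => (e.1, e.2, 1, -2)) (List.ofFn fun i => (ε (s i, t i) : ℕ)) =
      ch (Mq L (ex s)) * ch (Bq L (ex s) (ex t)) := by
  rw [← ch_add]
  unfold R3.Wt Mq Bq
  induction L with
  | nil => simp [ch]
  | cons e L ih =>
    obtain ⟨⟨h1, h2⟩, h3⟩ := List.forall_mem_cons.1 hL
    simp only [List.map_cons, List.prod_cons, List.sum_cons, ih h3]
    rw [add_add_add_comm, ch_add _ (_ + _), ← ch_edge]
    congr 3
    simp [R3.dl, h1, h2, ex, Fin.val_inj]

open Classical in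
theorem Z_four (hL : ∀ e ∈ L, e.1 < n ∧ e.2 < n) : dichromatic n L 4 (-2) =
    ∑ s : Fin n → ZMod 2, ch (Mq L (ex s)) * if ∀ τ, Bq L (ex s) τ = 0 then 2 ^ n else 0 := by
  have ε : ZMod 2 × ZMod 2 ≃ Fin 4 := Fintype.equivFinOfCardEq (by simp)
  have h := R3.Zw_nat 4 n (L.map fun e => (e.1, e.2, 1, -2))
    (List.forall_mem_map.2 fun e he => hL e he)
  rw [R3.dichromatic_eq, show (4 : ℝ) = (4 : ℕ) by norm_num, h, R3.SL_ofFn,
    ← ((Equiv.arrowProdEquivProdArrow (Fin n) (fun _ => ZMod 2) fun _ => ZMod 2).symm.trans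
      (Equiv.piCongrRight fun _ => ε)).sum_comp, Fintype.sum_prod_type]
  refine sum_congr rfl fun s _ => ?_
  rw [← sum_t hL, mul_sum]
  exact sum_congr rfl fun t _ => wt_eq hL ε s t

/-- The equation of the vertex `v`; the variable `n` stands for one. -/
def eqn (G : Inp) (v : ℕ) : List ℕ :=
  G.2.flatMap fun e => cond (decide (e.1 = v)) [G.1, e.1, e.2] [] ++
    cond (decide (e.2 = v)) [G.1, e.1, e.2] []

/-- The linear system. -/
def sys (G : Inp) : List (List ℕ × Bool) :=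
  ([G.1], true) :: (List.range G.1).map fun v => (eqn G v, false)

/-- A bit as a residue. -/
def bz (β : ℕ → Bool) : ℕ → ZMod 2 := fun i => if β i then 1 else 0

theorem count_eq (β : ℕ → Bool) (l : List ℕ) : (l.countP β : ZMod 2) = (l.map (bz β)).sum := by
  induction l with
  | nil => simp
  | cons a l ih =>
    rw [List.countP_cons, List.map_cons, List.sum_cons, ← ih]
    cases h : β a <;> simp [bz, h, add_comm]

theorem eqn_sum (v : ℕ) (h : σ n = 1) : ((eqn (n, L) v).map σ).sum = Bq L σ (de v) := by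
  unfold eqn Bq
  induction L with
  | nil => simp
  | cons e L ih =>
    dsimp only at ih ⊢
    rw [List.flatMap_cons, List.map_append, List.sum_append, ih, List.map_cons, List.sum_cons]
    congr 1
    by_cases h1 : e.1 = v <;> by_cases h2 : e.2 = v <;> simp [de, h1, h2, h] <;> ring

theorem sys_iff (hL : ∀ e ∈ L, e.1 < n ∧ e.2 < n) (β : ℕ → Bool) :
    (∀ e ∈ sys (n, L), Ev β e) ↔ β n = true ∧ ∀ τ, Bq L (bz β) τ = 0 := by
  unfold sys
  rw [List.forall_mem_cons, List.forall_mem_map]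
  refine and_congr_left_iff.2 (fun _ => ?_) |>.trans (and_congr_right fun hb => ?_)
  · cases h : β n <;> simp [Ev, h]
  · have h1 : bz β n = 1 := if_pos hb
    have h2 : ∀ v, Ev β (eqn (n, L) v, false) ↔ Bq L (bz β) (de v) = 0 := fun v => by
      rw [← eqn_sum v h1, ← count_eq, ZMod.natCast_eq_zero_iff, Nat.dvd_iff_mod_eq_zero]
      rfl
    simp only [h2, List.mem_range]
    refine ⟨fun h τ => ?_, fun h v _ => h _⟩
    rw [Bq_sum hL]
    exact sum_eq_zero fun v hv => by rw [h v (mem_range.1 hv), mul_zero]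

theorem ch_Mq (β : ℕ → Bool) : ch (Mq L (bz β)) =
    (-1) ^ (L.filter fun e => !xor (β e.1) (β e.2)).length := by
  unfold Mq
  induction L with
  | nil => simp [ch]
  | cons e L ih =>
    have h1 : (1 + 1 : ZMod 2) = 0 := by decide
    rw [List.map_cons, List.sum_cons, ch_add, ih, List.filter_cons]
    cases h : β e.1 <;> cases h' : β e.2 <;> simp [bz, h, h', ch, h1, pow_succ]

end Four

open Four in
theorem p_Four (h : S_Lin) : S_Four := by
  classical
  obtain ⟨sol, ps, hs⟩ := h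
  have p1 : PT sys := by unfold sys eqn; fun_prop
  have p2 : PT fun G : Inp => sol (sys G) := ps.comp p1
  have p3 : PT fun p : Inp × Bool × List ℕ => cond p.2.1
      ((-1 : ℤ) ^ (p.1.2.filter fun e => !xor (memb e.1 p.2.2) (memb e.2 p.2.2)).length) 0 := by
    unfold memb; fun_prop
  refine ⟨_, p3.comp (PT.id.pair p2), ?_⟩
  rintro ⟨n, L⟩ hL
  obtain ⟨h1, h2⟩ := hs (sys (n, L))
  dsimp only
  rw [Z_four hL]
  cases hb : (sol (sys (n, L))).1
  · rw [sum_eq_zero fun s _ => ?_]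
    · simp
    rw [if_neg, mul_zero]
    intro h3
    have h4 : ∀ x : ZMod 2, (if x = 1 then 1 else 0) = x := by decide
    have := h1 ⟨fun i => decide (i = n ∨ ex s i = 1), (sys_iff hL _).2 ⟨by simp, fun τ => ?_⟩⟩
    · rw [hb] at this
      exact Bool.false_ne_true this
    · rw [← h3 τ]
      refine Bq_congr hL (fun i hi => ?_) fun _ _ => rfl
      simp [bz, hi.ne, h4]
  · obtain ⟨-, h3⟩ := (sys_iff hL _).1 (h2 hb)
    generalize (sol (sys (n, L))).2 = S at h3
    have h4 : ∀ s : Fin n → ZMod 2, (ch (Mq L (ex s)) *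
        if ∀ τ, Bq L (ex s) τ = 0 then (2 : ℝ) ^ n else 0) =
        ch (Mq L (bz fun i => memb i S)) * if ∀ τ, Bq L (ex s) τ = 0 then 2 ^ n else 0 := by
      intro s
      split_ifs with h5
      · rw [Mq_eq h5 h3]
      · simp
    have h5 : 0 < ∑ s : Fin n → ZMod 2, if ∀ τ, Bq L (ex s) τ = 0 then (2 : ℝ) ^ n else 0 := by
      refine sum_pos' (fun s _ => by split_ifs <;> positivity)
        ⟨fun j => bz (fun i => memb i S) j, mem_univ _, ?_⟩
      rw [if_pos fun τ => (Bq_congr hL (ex_res _) fun _ _ => rfl).trans (h3 τ)]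
      positivity
    rw [sum_congr rfl fun s _ => h4 s, ← mul_sum, sign_mul, sign_pos h5, mul_one, ch_Mq, cond_true]
    rcases Nat.even_or_odd (L.filter fun e => !xor (memb e.1 S) (memb e.2 S)).length with h | h <;>
      simp [h.neg_one_pow]

end Pool.Agent.P.MP_e0c037_lc.WP
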