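import Pool.Agent.P.MP_e0c037_lc.WP.Base

/-! Hardness for `0 < q < 2`. -/

namespace Pool.Agent.P.MP_e0c037_lc.WP

namespace HLow

theorem f_le {t : ℝ} (ht : 0 ≤ t) : (1 + t) ^ 2 * (1 - t) ≤ 32 / 27 := by
  have : 0 ≤ (t - 1 / 3) ^ 2 * (t + 5 / 3) := by positivity
  nlinarith

theorem f_anti {s t : ℝ} (hs : 1 / 3 ≤ s) (hst : s ≤ t) :
    (1 + t) ^ 2 * (1 - t) ≤ (1 + s) ^ 2 * (1 - s) := by
  have h1 : 0 ≤ t ^ 2 + t * s + s ^ 2 + t + s - 1 := by nlinarith
  have : 0 ≤ (t - s) * (t ^ 2 + t * s + s ^ 2 + t + s - 1) := mul_nonneg (by linarith) h1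
  nlinarith

theorem f_lt {s t : ℝ} (hs : 1 / 3 ≤ s) (hst : s < t) :
    (1 + t) ^ 2 * (1 - t) < (1 + s) ^ 2 * (1 - s) := by
  have h1 : 0 < t ^ 2 + t * s + s ^ 2 + t + s - 1 := by nlinarith
  have : 0 < (t - s) * (t ^ 2 + t * s + s ^ 2 + t + s - 1) := mul_pos (by linarith) h1
  nlinarith

theorem exists_r {q : ℝ} (h0 : 0 < q) (h1 : q ≤ 32 / 27) :
    ∃ r : ℝ, 1 / 3 ≤ r ∧ r < 1 ∧ q = (1 + r) ^ 2 * (1 - r) := by
  have hc : ContinuousOn (fun t : ℝ => (1 + t) ^ 2 * (1 - t)) (Set.Icc (1 / 3) 1) := by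
    fun_prop
  obtain ⟨r, ⟨a, b⟩, e⟩ := intermediate_value_Icc' (by norm_num) hc
    (show q ∈ Set.Icc _ _ from ⟨by simpa using h0.le, by norm_num; linarith⟩)
  refine ⟨r, a, lt_of_le_of_ne b ?_, e.symm⟩
  rintro rfl
  norm_num at e
  linarith

theorem side (h1 : S_One) (h2 : S_Iter) {q r y : ℝ} {I : ℝ → Prop} (q0 : 0 < q) (q2 : q < 2)
    (hr : 1 / 3 ≤ r) (hq : q = (1 + r) ^ 2 * (1 - r)) (hc : Cl q I) (hy : I y) (yr : y < -r)
    (hm : y = -1 → 1 < q) (hn : 1 < q ∨ q ≠ 2 * (1 - y ^ 2)) : Big I := by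
  have ha : |y| = -y := abs_of_neg (by linarith)
  rcases lt_trichotomy y (-1) with h | h | h
  · exact hc.big hy (by rw [ha]; linarith)
  · exact h1 q I (hm h) q2 hc (h ▸ hy)
  · refine h2 q (q - (1 + -y) ^ 2 * (1 - -y)) I y q0 q2 ?_ hc hy (by rw [ha]; linarith) ?_ hn
    · have := f_lt hr (show r < -y by linarith)
      linarith
    · intro t ht _
      rw [ha] at ht
      have := f_anti (s := -y) (by linarith) ht
      linarith

end HLow

open HLow in
theorem p_HLow (hE : S_Eng) (hL : S_Low) (h1 : S_One) (h2 : S_Iter) : S_HLow := by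
  intro q v q0 q2 nE nL
  have hv : v < 0 := by
    by_contra h
    exact nE (Or.inr (Or.inl ⟨q0.le, not_lt.1 h⟩))
  have q1 : q ≠ 1 := fun h => nE (Or.inr (Or.inr (Or.inr (Or.inl h))))
  have hq : q ≠ 0 ∧ q ≠ 1 := ⟨q0.ne', q1⟩
  have hc := cl_im (v := v) hq
  have y1 : 1 + v ≠ 1 := by linarith
  have hy : Im q v (1 + v) ∧ 1 + v ≠ 1 := ⟨Im.base, y1⟩
  have e6 : ∀ _ : v = -2 ∨ v = -q / 2, 1 < q := fun h => by
    rcases lt_or_gt_of_ne q1 with a | a
    · exact absurd (Or.inr (Or.inr (Or.inr (Or.inr (Or.inr (Or.inl ⟨q0, a, h⟩)))))) nE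
    · exact a
  refine hE.hard hq (hL q _ (1 + v) q0 q2 q1 hc ?_ hy (by linarith))
  rcases lt_or_ge (32 / 27) q with hb | hb
  · rcases lt_trichotomy (1 + v) (-1) with h | h | h
    · exact hc.big hy (by rw [abs_of_neg (by linarith)]; linarith)
    · exact h1 q _ (by linarith) q2 hc (h ▸ hy)
    · refine h2 q (q - 32 / 27) _ (1 + v) q0 q2 (by linarith) hc hy
        (abs_lt.2 ⟨h, by linarith⟩) (fun t ht _ => ?_) (Or.inl (by linarith))
      have := f_le ((abs_nonneg _).trans ht)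
      linarith
  · obtain ⟨r, r0, r1, hr⟩ := exists_r q0 hb
    have hd : v < -1 - r ∨ r ^ 2 - 1 < v := by
      by_contra h
      push Not at h
      exact nE (Or.inr (Or.inr (Or.inr (Or.inr (Or.inl ⟨r, r0, r1, hr, h.1, h.2⟩)))))
    rcases hd with hd | hd
    · refine side h1 h2 q0 q2 r0 hr hc hy (by linarith) (fun h => e6 (Or.inl (by linarith))) ?_
      rcases lt_or_gt_of_ne q1 with a | a
      · refine Or.inr fun h => nL (Or.inr (Or.inr ⟨q0, a, Or.inl ⟨by linarith, by linarith⟩⟩))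
      · exact Or.inl a
    · have hm := X_mul (q := q) y1
      have hx := hc.dl hq.1 hy
      have hp := X_lt q0 (show 1 + v < 1 by linarith)
      generalize X q (1 + v) = x at hm hx hp
      rw [show 1 + v - 1 = v by ring] at hm
      have xr : x < -r := by
        by_contra h
        push Not at h
        have a1 : (1 - x) * -v ≤ (1 + r) * -v :=
          mul_le_mul_of_nonneg_right (by linarith) (by linarith)
        have a2 : (1 + r) * -v < (1 + r) * (1 - r ^ 2) :=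
          mul_lt_mul_of_pos_left (by linarith) (by linarith)
        nlinarith
      refine Big.of_dual q0 (side h1 h2 q0 q2 r0 hr (hc.dual hq.1) hx xr
        (fun h => e6 (Or.inr (by rw [h] at hm; linarith))) ?_)
      rcases lt_or_gt_of_ne q1 with a | a
      · refine Or.inr fun h => nL (Or.inr (Or.inr ⟨q0, a, Or.inr ⟨?_, by nlinarith⟩⟩))
        have : (x - 1) * (v + 2 * (1 + x)) = 0 := by linear_combination hm + h
        have hv' : v + 2 * (1 + x) = 0 :=
          (mul_eq_zero.1 this).resolve_left (by linarith)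
        rw [show 1 + v / 2 = -x by linarith]
        linarith [neg_sq x]
      · exact Or.inl a

end Pool.Agent.P.MP_e0c037_lc.WP
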