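import Pool.Agent.P.MP_e0c037_lc.WP.Base
import Pool.Agent.P.MP_e0c037_lc.R3.Main

/-! Hardness for `q < 0` and for `q ≥ 2`. -/

namespace Pool.Agent.P.MP_e0c037_lc.WP

namespace HRest

variable {q v : ℝ}

theorem neg (hE : S_Eng) (hN : S_NegQ) (hq : q < 0) (he : ¬ EasyPt q v) : Hard q v := by
  have h0 : q ≠ 0 ∧ q ≠ 1 := ⟨hq.ne, by linarith⟩
  have h1 : v < -q / 2 := not_le.1 fun h => he (Or.inl ⟨hq.le, Or.inr h⟩)
  have h2 : v < -2 ∨ 0 < v := by
    by_contra h
    push Not at h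
    exact he (Or.inl ⟨hq.le, Or.inl h⟩)
  have hv : 1 + v ≠ 1 := by rcases h2 with h | h <;> linarith
  refine hE.hard h0 (hN q _ (1 + v) hq (cl_im h0) ⟨Im.base, hv⟩ ?_)
  rcases h2 with h | h
  · exact Or.inl (by linarith)
  · refine Or.inr ?_
    rw [X_base]
    have : q / v < -2 := by rw [div_lt_iff₀ h]; linarith
    linarith

theorem mid (hE : S_Eng) (hF : S_Five) (hH : S_High) (hq : 2 ≤ q) (h1 : -q < v) (h2 : v < -1)
    (he : ¬ EasyPt q v) : Hard q v := by
  have h0 : q ≠ 0 ∧ q ≠ 1 := ⟨by linarith, by linarith⟩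
  have hv : v < 0 := by linarith
  have hy : Im q v (1 + v) ∧ 1 + v ≠ 1 := ⟨Im.base, by linarith⟩
  have hx : X q (1 + v) < 0 := by
    rw [X_base]
    have : q / v < -1 := by rw [div_lt_iff_of_neg hv]; linarith
    linarith
  refine hE.hard h0 (hF q _ (by linarith) (cl_im h0) ?_ ⟨_, hy, by linarith⟩ ⟨_, hy, hx⟩)
  refine hH q _ (1 + v) hq (cl_im h0) hy (by linarith) hx fun h => he ?_
  obtain ⟨a, b⟩ := h
  have e : v = -2 := by linarith
  rw [X_base, e] at b
  have e' : q = 4 := by linarith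
  simp only [EasyPt]
  tauto

theorem top (hE : S_Eng) (hF : S_Five) (hC : S_Chrom) (hq : 2 < q) (hk : ∀ k : ℕ, q ≠ k)
    (h1 : -1 ≤ v) (hv : v < 0) : Hard q v := by
  have h0 : q ≠ 0 ∧ q ≠ 1 := ⟨by linarith, by linarith⟩
  have hy : Im q v (1 + v) ∧ 1 + v ≠ 1 := ⟨Im.base, by linarith⟩
  have hx : X q (1 + v) < -1 := by
    rw [X_base]
    have : q / v ≤ -q := by rw [div_le_iff_of_neg hv]; nlinarith
    linarith
  have hb : Big fun y => Im q v y ∧ y ≠ 1 :=
    Big.of_dual (by linarith) (((cl_im h0).dual h0.1).big ((cl_im h0).dl h0.1 hy)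
      (by rw [abs_of_neg (by linarith)]; linarith))
  obtain ⟨z, z1, z2⟩ := hC q v (1 + v) hq hk Im.base (by linarith) (by linarith)
  exact hE.hard h0 (hF q _ (by linarith) (cl_im h0) hb ⟨z, ⟨z2, by linarith⟩, z1⟩
    ⟨_, hy, by linarith⟩)

theorem three {k : ℕ} (hq : 2 ≤ q) (hk : q = k) (h2 : q ≠ 2) : 3 ≤ k := by
  have h3 : (2 : ℝ) < k := hk ▸ lt_of_le_of_ne hq h2.symm
  have h4 : 2 < k := by exact_mod_cast h3
  omega

end HRest

open HRest in
theorem p_HRest (hE : S_Eng) (hN : S_NegQ) (hF : S_Five) (hH : S_High) (hC : S_Chrom)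
    (hW : S_Flow) : S_HRest := by
  intro q v hq he hl
  rcases hq with hq | hq
  · exact neg hE hN hq he
  have hv : v < 0 := not_le.1 fun h => he (Or.inr (Or.inl ⟨by linarith, h⟩))
  simp only [EasyPt, not_or, not_and_or] at he
  obtain ⟨e1, e2, e3, e4, e5, e6, e7, e8, e9, e10⟩ := he
  have he : ¬ EasyPt q v := by
    simp only [EasyPt, not_or, not_and_or]
    exact ⟨e1, e2, e3, e4, e5, e6, e7, e8, e9, e10⟩
  by_cases hk : ∃ k : ℕ, q = k
  · obtain ⟨a, b⟩ := e7.resolve_left (not_not.2 hk)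
    obtain ⟨k, hk⟩ := hk
    rcases (not_lt.1 a).eq_or_lt with a | a
    · exfalso
      by_cases h2 : q = 2
      · exact (e8.resolve_left (not_not.2 h2)).2 (by linarith)
      · refine hl (Or.inr (Or.inl ⟨k, three hq hk h2, hk, Or.inr ⟨a.symm, ?_⟩⟩))
        exact not_le.1 (e10.resolve_right (not_not.2 a.ge))
    rcases (not_lt.1 b).eq_or_lt with b | b
    · exfalso
      by_cases h2 : q = 2
      · exact (e8.resolve_left (not_not.2 h2)).1 b
      · exact hl (Or.inr (Or.inl ⟨k, three hq hk h2, hk, Or.inl b⟩))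
    exact mid hE hF hH hq a b he
  have hk' : ∀ k : ℕ, q ≠ k := fun k h => hk ⟨k, h⟩
  have h2 : 2 < q := lt_of_le_of_ne hq fun h => hk' 2 (by rw [← h]; norm_num)
  rcases le_or_gt (-1) v with a | a
  · exact top hE hF hC h2 hk' a hv
  rcases lt_or_ge (-q) v with b | b
  · exact mid hE hF hH hq b a he
  rcases lt_or_ge q 3 with c | c
  · obtain ⟨z, z1, z2, z3⟩ := hW q v h2 c b
    exact hE q v (1 + v) z (by linarith) (by linarith) Im.base (by linarith) z1 z2 z3
  rcases lt_or_ge q (4 + 2 * √2) with d | d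
  · exact (R3.hard c d hk').2 v b
  exact absurd (Or.inl ⟨hk', d, not_le.1 (e10.resolve_right (not_not.2 b)), b⟩) hl

end Pool.Agent.P.MP_e0c037_lc.WP
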