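import Pool.Agent.P.MP_e0c037_lc.WP.Base

/-! The sign of the dichromatic polynomial at a positive integer `q`, for `v > -1` and `v < -q`. -/

namespace Pool.Agent.P.MP_e0c037_lc.WP

open Finset R3

namespace IntP

open scoped ComplexOrder

variable {n k : ℕ} [NeZero k]

/-- The colour of a vertex given by a natural number. -/
def ex (n k u : ℕ) : (Fin n → ZMod k) →+ ZMod k where
  toFun σ := if h : u < n then σ ⟨u, h⟩ else 0
  map_zero' := by simp
  map_add' σ τ := by split_ifs <;> simp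

/-- The character of an edge. -/
noncomputable def ch (n k : ℕ) [NeZero k] (e : ℕ × ℕ) (t : ZMod k) :
    AddChar (Fin n → ZMod k) ℂ :=
  (ZMod.stdAddChar (N := k)).compAddMonoidHom
    ((AddMonoidHom.mulLeft t).comp (ex n k e.1 - ex n k e.2))

/-- Indicator of equal colours. -/
noncomputable def d (n k : ℕ) (e : ℕ × ℕ) (σ : Fin n → ZMod k) : ℝ :=
  if ex n k e.1 σ = ex n k e.2 σ then 1 else 0

theorem sum_ch (e : ℕ × ℕ) (σ : Fin n → ZMod k) :
    ∑ t ∈ univ.erase (0 : ZMod k), ch n k e t σ = ((k * d n k e σ - 1 : ℝ) : ℂ) := by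
  have h := AddChar.sum_mulShift (ex n k e.1 σ - ex n k e.2 σ) (ZMod.isPrimitive_stdAddChar k)
  have h0 : ch n k e 0 σ = 1 := by simp [ch]
  have h1 : ∑ t, ch n k e t σ = ((k * d n k e σ : ℝ) : ℂ) := by
    refine Eq.trans (sum_congr rfl fun t _ => by simp [ch, mul_sub]) (h.trans ?_)
    simp only [d, sub_eq_zero, ZMod.card]
    split_ifs <;> simp
  rw [← add_sum_erase _ _ (mem_univ (0 : ZMod k)), h0] at h1
  push_cast at h1 ⊢
  linear_combination h1

/-- The twisted partition function. -/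
noncomputable def S (α β : ℝ) (L : List (ℕ × ℕ)) (χ : AddChar (Fin n → ZMod k) ℂ) : ℂ :=
  ∑ σ, χ σ * (((L.map fun e => α + β * (k * d n k e σ - 1)).prod : ℝ) : ℂ)

theorem S_cons (α β : ℝ) (e : ℕ × ℕ) (L : List (ℕ × ℕ)) (χ : AddChar (Fin n → ZMod k) ℂ) :
    S α β (e :: L) χ =
      α * S α β L χ + β * ∑ t ∈ univ.erase (0 : ZMod k), S α β L (χ * ch n k e t) := by
  simp only [S, List.map_cons, List.prod_cons]
  rw [sum_comm, mul_sum, mul_sum, ← sum_add_distrib]
  refine sum_congr rfl fun σ _ => ?_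
  simp only [AddChar.mul_apply]
  rw [← sum_mul, ← mul_sum, sum_ch]
  push_cast
  ring

theorem S_nonneg {α β : ℝ} (hα : 0 ≤ α) (hβ : 0 ≤ β) (L : List (ℕ × ℕ))
    (χ : AddChar (Fin n → ZMod k) ℂ) : 0 ≤ S α β L χ := by
  induction L generalizing χ with
  | nil =>
    simp only [S, List.map_nil, List.prod_nil, Complex.ofReal_one, mul_one, AddChar.sum_eq_ite]
    split_ifs
    · exact Nat.cast_nonneg _
    · exact le_rfl
  | cons e L ih =>
    rw [S_cons]
    exact add_nonneg (mul_nonneg (by exact_mod_cast hα) (ih _))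
      (mul_nonneg (by exact_mod_cast hβ) (sum_nonneg fun t _ => ih _))

theorem S_pos {α β : ℝ} (hα : 0 < α) (hβ : 0 ≤ β) (L : List (ℕ × ℕ)) :
    0 < S α β L (1 : AddChar (Fin n → ZMod k) ℂ) := by
  induction L with
  | nil =>
    simp only [S, List.map_nil, List.prod_nil, Complex.ofReal_one, mul_one, AddChar.one_apply,
      sum_const, card_univ, nsmul_eq_mul]
    exact_mod_cast Fintype.card_pos
  | cons e L ih =>
    rw [S_cons]
    exact add_pos_of_pos_of_nonneg (mul_pos (by exact_mod_cast hα) ih)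
      (mul_nonneg (by exact_mod_cast hβ) (sum_nonneg fun t _ => S_nonneg hα.le hβ _ _))

theorem sum_pos' {α β : ℝ} (hα : 0 < α) (hβ : 0 ≤ β) (L : List (ℕ × ℕ)) :
    0 < ∑ σ : Fin n → ZMod k, (L.map fun e => α + β * (k * d n k e σ - 1)).prod := by
  have h := S_pos (n := n) (k := k) hα hβ L
  simp only [S, AddChar.one_apply, one_mul] at h
  exact_mod_cast h

theorem potts (v : ℝ) (L : List (ℕ × ℕ)) (hL : ∀ e ∈ L, e.1 < n ∧ e.2 < n) :
    dichromatic n L k v = ∑ σ : Fin n → ZMod k, (L.map fun e => 1 + v * d n k e σ).prod := by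
  rw [dichromatic_eq, Zw_nat k n _ (List.forall_mem_map.2 hL), SL_ofFn]
  refine Fintype.sum_equiv (Equiv.piCongrRight fun _ => (ZMod.finEquiv k).toEquiv) _ _ fun σ => ?_
  rw [Wt, List.map_map]
  congr 1
  refine List.map_congr_left fun e he => ?_
  obtain ⟨h1, h2⟩ := hL e he
  simp [dl, d, ex, h1, h2, List.getElem?_ofFn, Fin.ext_iff.symm]

theorem neg_prod (L : List (ℕ × ℕ)) (f : ℕ × ℕ → ℝ) :
    (-1) ^ L.length * (L.map f).prod = (L.map fun e => -f e).prod := by
  induction L with
  | nil => simp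
  | cons e L ih => simp only [List.length_cons, List.map_cons, List.prod_cons, ← ih]; ring

end IntP

open IntP in
theorem p_Int : S_Int := by
  intro k v G hk hG
  have : NeZero k := ⟨by omega⟩
  have hk0 : (0 : ℝ) < k := by exact_mod_cast hk
  rw [potts v G.2 hG]
  refine ⟨fun hv => sum_pos (fun σ _ => List.prod_pos fun a ha => ?_) univ_nonempty, fun hv => ?_⟩
  · obtain ⟨e, _, rfl⟩ := List.mem_map.1 ha
    unfold d
    split_ifs <;> linarith
  · have h1 : 1 < -v / k := by rw [lt_div_iff₀ hk0]; linarith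
    have h := sum_pos' (n := G.1) (k := k) (α := -v / k - 1) (β := -v / k) (by linarith)
      (by linarith) G.2
    rw [mul_sum]
    refine h.trans_eq (sum_congr rfl fun σ _ => ?_)
    rw [neg_prod]
    congr 1
    refine List.map_congr_left fun e _ => ?_
    field_simp
    ring

end Pool.Agent.P.MP_e0c037_lc.WP
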