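import Pool.Agent.P.MP_e0c037_lc.WP.Base

/-! Escape from the weight minus one, and the iteration towards it. -/

namespace Pool.Agent.P.MP_e0c037_lc.WP

namespace Iter

variable {q y : ℝ} {I : ℝ → Prop}

theorem big_neg (h : Cl q I) (hy : I y) (h1 : y < -1) : Big I :=
  h.big hy (by rw [abs_of_neg (by linarith)]; linarith)

theorem big_X (h : Cl q I) (hq : 0 < q) (hy : I y) (h1 : X q y < -1) : Big I :=
  (big_neg (h.dual hq.ne') (h.dl hq.ne' hy) h1).of_dual hq

theorem sq (h : Cl q I) (hy : I y) (h1 : y ^ 2 ≠ 1) : I (y ^ 2) := by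
  rw [pow_two] at h1 ⊢
  exact h.par _ _ hy hy h1

end Iter

open Iter

theorem p_One (h : SG.S_Esc) : S_One := by
  intro q I h1 h2 hc hI
  have hq : 0 < q := by linarith
  rcases le_or_gt q (32 / 27) with h3 | h3
  · obtain ⟨y, hy, hy1⟩ := h q (fun y => I y ∨ y = 1) h1 h3 (Or.inl hI)
      (by
        rintro y z (a | a) (b | b)
        · by_cases e : y * z = 1
          · exact Or.inr e
          · exact Or.inl (hc.par _ _ a b e)
        · rw [b, mul_one]; exact Or.inl a
        · rw [a, one_mul]; exact Or.inl b
        · rw [a, b, mul_one]; exact Or.inr rfl)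
      (by
        rintro y z (a | a) (b | b) hy hz e
        · exact Or.inl (hc.ser _ _ a b e)
        · exact absurd b hz
        · exact absurd a hy
        · exact absurd a hy)
    exact ⟨y, hy.resolve_right hy1.ne', hy1⟩
  · have e1 : X q (-1) = 1 - q / 2 := by unfold X; norm_num
    have h4 : (4 : ℝ) - q ≠ 0 := by linarith
    have h5 : (4 : ℝ) - 2 * q ≠ 0 := by linarith
    have e2 : X q (X q (-1) * X q (-1)) = -(q / (4 - q)) := by
      rw [e1]
      unfold X
      rw [show 1 - (1 - q / 2) * (1 - q / 2) = q * (4 - q) / 4 by ring]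
      field_simp
      ring
    have i1 : I (-(q / (4 - q))) := by
      rw [← e2]
      refine hc.ser _ _ hI hI ?_
      rw [e1]
      nlinarith
    have h6 : q / (4 - q) < 1 := by
      rw [div_lt_one (by linarith)]; linarith
    have i2 : I (q / (4 - q)) := by
      have := hc.par _ _ hI i1 (by rw [neg_mul_neg, one_mul]; exact h6.ne)
      rwa [neg_mul_neg, one_mul] at this
    refine big_X hc hq i2 ?_
    have e3 : X q (q / (4 - q)) = 1 - q * (4 - q) / (4 - 2 * q) := by
      unfold X
      rw [show 1 - q / (4 - q) = (4 - 2 * q) / (4 - q) by field_simp; ring]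
      field_simp
    have : 2 < q * (4 - q) / (4 - 2 * q) := by
      rw [lt_div_iff₀ (by linarith)]
      nlinarith
    rw [e3]
    linarith

theorem p_Iter (h : S_One) : S_Iter := by
  intro q η I y hq hq2 hη
  have key : ∀ (n : ℕ) (I : ℝ → Prop) (y : ℝ), 1 - |y| ≤ n * η → Cl q I → I y → |y| < 1 →
      (∀ t, |y| ≤ t → t < 1 → (1 + t) ^ 2 * (1 - t) + η ≤ q) →
      (1 < q ∨ q ≠ 2 * (1 - y ^ 2)) → Big I := by
    intro n
    induction n with
    | zero => intro I y hn _ _ hy _ _; simp only [Nat.cast_zero, zero_mul] at hn; linarith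
    | succ n ih =>
      intro I y hn hc hI hy hb hor
      push_cast at hn
      have hs0 : 0 ≤ |y| := abs_nonneg y
      have hsq : y ^ 2 = |y| ^ 2 := (sq_abs y).symm
      have hbs := hb _ le_rfl hy
      generalize hs : |y| = s at *
      have hd : 0 < 1 - s ^ 2 := by nlinarith
      have i1 : I (s ^ 2) := by
        rw [← hsq]; exact sq hc hI (by rw [hsq]; linarith)
      obtain ⟨t, ht⟩ : ∃ t, t = q / (1 - s ^ 2) - 1 := ⟨_, rfl⟩
      have ht' : (t + 1) * (1 - s ^ 2) = q := by
        rw [ht, sub_add_cancel, div_mul_cancel₀ _ hd.ne']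
      have hts : s + η ≤ t := by
        have : (s + η + 1) * (1 - s ^ 2) ≤ (t + 1) * (1 - s ^ 2) := by
          rw [ht']; nlinarith [mul_nonneg hη.le (sq_nonneg s)]
        have := le_of_mul_le_mul_right this hd
        linarith
      have hc' := hc.dual hq.ne'
      have d1 : Dl q I (-t) := by
        have := hc.dl hq.ne' i1
        rwa [show X q (s ^ 2) = -t by unfold X; rw [ht]; ring] at this
      rcases lt_trichotomy 1 t with h1 | h1 | h1
      · exact (big_neg hc' d1 (by linarith)).of_dual hq
      · rcases hor with h2 | h2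
        · rw [← h1] at d1
          exact (h q _ h2 hq2 hc' d1).of_dual hq
        · refine absurd ?_ h2
          rw [hsq, ← ht', ← h1]; ring
      have ht0 : 0 < t := by linarith
      have hat : |-t| = t := by rw [abs_neg, abs_of_pos ht0]
      by_cases hor' : 1 < q ∨ q ≠ 2 * (1 - (-t) ^ 2)
      · refine (ih _ (-t) (by rw [hat]; linarith) hc' d1 (by rwa [hat]) (fun u hu hu1 => ?_)
          hor').of_dual hq
        rw [hat] at hu
        exact hb u (by linarith) hu1
      obtain ⟨h2, h3⟩ := not_or.1 hor'
      rw [not_lt] at h2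
      rw [not_not, neg_sq] at h3
      have hdt : 0 < 1 - t ^ 2 := by nlinarith
      have i2 : I (-1) := by
        have := (sq hc' d1 (by rw [neg_sq]; linarith)).2
        rwa [neg_sq, show X q (t ^ 2) = -1 by
          unfold X; rw [h3, mul_div_assoc, div_self hdt.ne']; ring] at this
      have i3 : I s := by
        rcases abs_choice y with e | e
        · rw [← hs, e]; exact hI
        · have := hc.par _ _ i2 hI (by rw [neg_one_mul, ← e, hs]; exact hy.ne)
          rwa [neg_one_mul, ← e, hs] at this
      have hs1 : 0 < s := by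
        rcases hs0.lt_or_eq with e | e
        · exact e
        · rw [← e] at hbs; nlinarith
      obtain ⟨u, hu⟩ : ∃ u, u = q / (1 - s) - 1 := ⟨_, rfl⟩
      have hu' : (u + 1) * (1 - s) = q := by
        rw [hu, sub_add_cancel, div_mul_cancel₀ _ (by linarith)]
      have hut : t < u := by
        have e : (u + 1) * (1 - s) = (t + 1) * (1 + s) * (1 - s) := by
          rw [hu', ← ht']; ring
        have := mul_right_cancel₀ (show 1 - s ≠ 0 by linarith) e
        nlinarith
      have d2 : Dl q I (-u) := by
        have := hc.dl hq.ne' i3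
        rwa [show X q s = -u by unfold X; rw [hu]; ring] at this
      rcases lt_trichotomy 1 u with h4 | h4 | h4
      · exact (big_neg hc' d2 (by linarith)).of_dual hq
      · rw [← h4] at d2
        have d3 := hc'.par _ _ d2 d1 (by rw [neg_mul_neg, one_mul]; exact h1.ne)
        rw [neg_mul_neg, one_mul] at d3
        refine big_neg hc d3.2 ?_
        have : 2 < q / (1 - t) := by
          rw [lt_div_iff₀ (by linarith)]; nlinarith
        unfold X
        linarith
      · have hdu : 0 < 1 - u ^ 2 := by nlinarith
        have d3 := sq hc' d2 (by rw [neg_sq]; linarith)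
        rw [neg_sq] at d3
        refine big_neg hc d3.2 ?_
        have : 2 < q / (1 - u ^ 2) := by
          rw [lt_div_iff₀ hdu]; nlinarith
        unfold X
        linarith
  obtain ⟨n, hn⟩ := exists_nat_ge (1 / η)
  rw [div_le_iff₀ hη] at hn
  exact key n I y (by linarith [abs_nonneg y])

end Pool.Agent.P.MP_e0c037_lc.WP
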