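import Pool.Agent.P.MP_e0c037_lc.WP.Base

/-! Linear systems modulo two are solved in polynomial time. -/

namespace Pool.Agent.P.MP_e0c037_lc.WP

open Finset Pool.Agent.Lib.helper21

namespace Lin

/-- Sum of two vectors given by their supports inside the list `U`. -/
def ad (U u v : List ℕ) : List ℕ := U.filter fun i => xor (memb i u) (memb i v)

/-- Parity of the number of entries of `l` lying in `v`. -/
def par (l v : List ℕ) : Bool := l.foldl (fun b i => xor b (memb i v)) false

/-- State: a flag, a particular solution, generators of the homogeneous solutions. -/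
abbrev Sta := Bool × List ℕ × List (List ℕ)

/-- One more equation. -/
def step (U : List ℕ) (s : Sta) (e : List ℕ × Bool) : Sta :=
  lcase (s.2.2.filter fun v => par e.1 v) ((s.1 && !xor (par e.1 s.2.1) e.2), s.2.1, s.2.2)
    fun p _ => (s.1, cond (xor (par e.1 s.2.1) e.2) (ad U s.2.1 p) s.2.1,
      s.2.2.map fun v => cond (par e.1 v) (ad U v p) v)

/-- The starting state. -/
def init (U : List ℕ) : Sta := (true, [], U.map fun i => [i])

/-- All indices. -/
def uni (D : List (List ℕ × Bool)) : List ℕ := D.flatMap fun e => e.1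

/-- The final state. -/
def run (D : List (List ℕ × Bool)) : Sta := D.foldl (step (uni D)) (init (uni D))

theorem pt_par0 : PT fun p : List ℕ × List ℕ => par p.1 p.2 :=
  PT.foldl_add (f := fun (p : List ℕ × List ℕ) (b : Bool) (i : ℕ) => xor b (memb i p.2))
    (by unfold memb; fun_prop) (by fun_prop) (by fun_prop) (fun _ => 0) (Bd.const _ _)
    fun a s x => by simp

@[fun_prop] theorem pt_par {α : Type} [Enc α] {f g : α → List ℕ} (hf : PT f) (hg : PT g) :
    PT fun a => par (f a) (g a) :=
  pt_par0.comp (g := fun a => (f a, g a)) (hf.pair hg)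

theorem pt_ad0 : PT fun p : List ℕ × List ℕ × List ℕ => ad p.1 p.2.1 p.2.2 := by
  unfold ad memb; fun_prop

@[fun_prop] theorem pt_ad {α : Type} [Enc α] {f g h : α → List ℕ} (hf : PT f) (hg : PT g)
    (hh : PT h) : PT fun a => ad (f a) (g a) (h a) :=
  pt_ad0.comp (g := fun a => (f a, g a, h a)) (hf.pair (hg.pair hh))

/-- Size invariant. -/
def Sm (U : List ℕ) (s : Sta) : Prop :=
  sz s.2.1 ≤ 2 * sz U + 3 ∧ s.2.2.length ≤ sz U ∧ ∀ v ∈ s.2.2, sz v ≤ 2 * sz U + 3

theorem sz_ad (U u v : List ℕ) : sz (ad U u v) ≤ 2 * sz U + 3 := by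
  have : sz (ad U u v) ≤ sz U := sz_filter _ _
  omega

theorem sm_step {U : List ℕ} {s : Sta} (h : Sm U s) (e : List ℕ × Bool) : Sm U (step U s e) := by
  obtain ⟨h1, h2, h3⟩ := h
  unfold step
  cases s.2.2.filter fun v => par e.1 v with
  | nil => exact ⟨h1, h2, h3⟩
  | cons p t =>
    refine ⟨?_, by simpa [lcase] using h2, fun v hv => ?_⟩
    · simp only [lcase]
      cases xor (par e.1 s.2.1) e.2
      · exact h1
      · exact sz_ad _ _ _
    · obtain ⟨w, hw, rfl⟩ := List.mem_map.1 hv
      cases par e.1 w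
      · exact h3 w hw
      · exact sz_ad _ _ _

theorem sm_fold {U : List ℕ} (D : List (List ℕ × Bool)) :
    ∀ s, Sm U s → Sm U (D.foldl (step U) s) := by
  induction D with
  | nil => exact fun s h => h
  | cons e D ih => exact fun s h => ih _ (sm_step h e)

theorem sm_init (U : List ℕ) : Sm U (init U) := by
  refine ⟨by simp [init], by simpa [init] using length_le_sz U, fun v hv => ?_⟩
  obtain ⟨i, hi, rfl⟩ := List.mem_map.1 hv
  have := sz_mem hi
  simp only [sz_cons, sz_nil]
  omega

theorem pt_uni : PT uni := by unfold uni; fun_prop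

theorem pt_run : PT run := by
  have hu := pt_uni
  refine PT.foldl (f := fun D => step (uni D)) (by unfold step; fun_prop) (by fun_prop)
    (by unfold init; fun_prop)
    (fun D => 2 * (2 * sz (uni D) + 3) + (sz (uni D) * (2 * (2 * sz (uni D) + 3) + 2) + 1) + 4)
    (PT.bdNat (by fun_prop)) fun D j => ?_
  obtain ⟨h1, h2, h3⟩ := sm_fold (D.take j) _ (sm_init (uni D))
  generalize (D.take j).foldl (step (uni D)) (init (uni D)) = s at h1 h2 h3
  have h4 := (sz_list_le _ _ h3).trans (Nat.add_le_add_right (Nat.mul_le_mul_right _ h2) 1)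
  rw [sz_prod, sz_prod s.2, sz_bool]
  omega

/-- A bit as a residue. -/
def bz (b : Bool) : ZMod 2 := (b.toNat : ℕ)

theorem bz_xor (a b : Bool) : bz (xor a b) = bz a + bz b := by
  cases a <;> cases b <;> rfl

theorem bz_inj {a b : Bool} (h : bz a = bz b) : a = b := by
  revert h; cases a <;> cases b <;> decide

/-- The vector with support `v` inside `U`. -/
def vec (U v : List ℕ) : ℕ → ZMod 2 := fun i => bz (memb i v && memb i U)

/-- The linear form of an index list. -/
def fm (l : List ℕ) (τ : ℕ → ZMod 2) : ZMod 2 := (l.map τ).sum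

theorem memb_true {i : ℕ} {K : List ℕ} : memb i K = true ↔ i ∈ K := by
  rw [← Bool.not_eq_false, memb_iff, not_not]

theorem vec_ad (U u v : List ℕ) : vec U (ad U u v) = vec U u + vec U v := by
  funext i
  simp only [vec, Pi.add_apply]
  by_cases hi : i ∈ U
  · have : memb i (ad U u v) = xor (memb i u) (memb i v) := by
      rw [Bool.eq_iff_iff, memb_true]; simp [ad, hi]
    rw [this, memb_true.2 hi]
    simpa using bz_xor _ _
  · rw [memb_iff.2 hi]
    simp [bz]

theorem fm_add (l : List ℕ) (σ τ : ℕ → ZMod 2) : fm l (σ + τ) = fm l σ + fm l τ := by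
  induction l with
  | nil => simp [fm]
  | cons a l ih =>
    simp only [fm, List.map_cons, List.sum_cons, Pi.add_apply] at ih ⊢
    rw [ih]; ring

theorem fm_zero (l : List ℕ) : fm l 0 = 0 := by
  induction l with
  | nil => simp [fm]
  | cons a l ih => simpa [fm] using ih

theorem fm_congr {l : List ℕ} {σ τ : ℕ → ZMod 2} (h : ∀ i ∈ l, σ i = τ i) : fm l σ = fm l τ := by
  unfold fm; rw [List.map_congr_left h]

theorem fm_count (l : List ℕ) (σ : ℕ → Bool) : fm l (fun i => bz (σ i)) = (l.countP σ : ℕ) := by
  induction l with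
  | nil => simp [fm]
  | cons a l ih =>
    simp only [fm, List.map_cons, List.sum_cons] at ih ⊢
    rw [ih, List.countP_cons]
    cases σ a <;> simp [bz, add_comm]

theorem ev_iff (σ : ℕ → Bool) (e : List ℕ × Bool) :
    Ev σ e ↔ fm e.1 (fun i => bz (σ i)) = bz e.2 := by
  rw [fm_count, bz, ZMod.natCast_eq_natCast_iff', Ev]
  cases e.2 <;> simp

theorem bz_par {U l : List ℕ} (h : ∀ i ∈ l, i ∈ U) (v : List ℕ) :
    bz (par l v) = fm l (vec U v) := by
  have : ∀ (l : List ℕ) (b : Bool), bz (l.foldl (fun b i => xor b (memb i v)) b) =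
      bz b + fm l fun i => bz (memb i v) := by
    intro l
    induction l with
    | nil => intro b; simp [fm]
    | cons a l ih =>
      intro b
      rw [List.foldl_cons, ih, bz_xor]
      simp only [fm, List.map_cons, List.sum_cons]
      ring
  rw [par, this, show bz false = 0 from rfl, zero_add]
  exact fm_congr fun i hi => by simp [vec, memb_true.2 (h i hi)]

/-- The sums of generators. -/
def sp (U : List ℕ) (B : List (List ℕ)) : AddSubmonoid (ℕ → ZMod 2) :=
  AddSubmonoid.closure {w | ∃ v ∈ B, vec U v = w}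

/-- Correctness invariant. -/
def Inv (U : List ℕ) (P : List (List ℕ × Bool)) (s : Sta) : Prop :=
  (s.1 = true → ∀ e ∈ P, fm e.1 (vec U s.2.1) = bz e.2) ∧
  (∀ v ∈ s.2.2, ∀ e ∈ P, fm e.1 (vec U v) = 0) ∧
  ∀ τ : ℕ → ZMod 2, (∀ i, i ∉ U → τ i = 0) → (∀ e ∈ P, fm e.1 τ = bz e.2) →
    s.1 = true ∧ τ + vec U s.2.1 ∈ sp U s.2.2

theorem z2 (x : ZMod 2) : x = 0 ∨ x = 1 := by revert x; decide

theorem z2_add (x : ZMod 2) : x + x = 0 := by revert x; decide

theorem inv_init (U : List ℕ) : Inv U [] (init U) := by
  refine ⟨by simp, by simp, fun τ h _ => ⟨rfl, ?_⟩⟩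
  have e : τ + vec U (init U).2.1 = ∑ i ∈ U.toFinset, if τ i = 0 then 0 else vec U [i] := by
    funext j
    have h0 : vec U (init U).2.1 j = 0 := by simp [vec, init, memb, bz]
    rw [Pi.add_apply, h0, add_zero, Finset.sum_apply, Finset.sum_eq_single j]
    · split_ifs with hj
      · exact hj
      · have hU : j ∈ U := by by_contra hh; exact hj (h j hh)
        rw [(z2 _).resolve_left hj]
        simp [vec, memb_true.2 hU, memb_true.2 (List.mem_singleton_self j), bz]
    · intro i _ hij
      split_ifs
      · rfl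
      · have : memb j [i] = false := memb_iff.2 (by simpa using hij.symm)
        simp [vec, this, bz]
    · intro hj
      rw [if_pos (h j (by simpa using hj))]
      rfl
  rw [e]
  refine AddSubmonoid.sum_mem _ fun i hi => ?_
  split_ifs
  · exact AddSubmonoid.zero_mem _
  · exact AddSubmonoid.subset_closure ⟨[i], List.mem_map_of_mem (List.mem_toFinset.1 hi), rfl⟩

theorem vec_cond (U u p : List ℕ) (b : Bool) :
    vec U (cond b (ad U u p) u) = vec U u + bz b • vec U p := by
  cases b
  · simp [bz]
  · simp [bz, vec_ad]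

theorem fm_smul (l : List ℕ) (c : ZMod 2) (τ : ℕ → ZMod 2) : fm l (c • τ) = c * fm l τ := by
  rcases z2 c with rfl | rfl
  · simp [fm_zero]
  · simp

theorem inv_step {U : List ℕ} {P : List (List ℕ × Bool)} {s : Sta} {e : List ℕ × Bool}
    (he : ∀ i ∈ e.1, i ∈ U) (h : Inv U P s) : Inv U (P ++ [e]) (step U s e) := by
  obtain ⟨h1, h2, h3⟩ := h
  have hp := bz_par he
  unfold step
  cases hF : s.2.2.filter fun v => par e.1 v with
  | nil =>
    have hn : ∀ v ∈ s.2.2, fm e.1 (vec U v) = 0 := fun v hv => by
      have := List.filter_eq_nil_iff.1 hF v hv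
      rw [← hp, Bool.eq_false_iff.2 this]
      rfl
    simp only [lcase]
    refine ⟨fun hs x hx => ?_, fun v hv x hx => ?_, fun τ a b => ?_⟩
    · simp only [Bool.and_eq_true, Bool.not_eq_true'] at hs
      rcases List.mem_append.1 hx with hx | hx
      · exact h1 hs.1 x hx
      · rw [List.mem_singleton.1 hx, ← hp]
        congr 1
        revert hs
        cases par e.1 s.2.1 <;> cases e.2 <;> simp
    · rcases List.mem_append.1 hx with hx | hx
      · exact h2 v hv x hx
      · rw [List.mem_singleton.1 hx]; exact hn v hv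
    · obtain ⟨c, d⟩ := h3 τ a fun x hx => b x (List.mem_append_left _ hx)
      refine ⟨?_, d⟩
      have k : ∀ w ∈ sp U s.2.2, fm e.1 w = 0 := fun w hw => by
        induction hw using AddSubmonoid.closure_induction with
        | mem x hx => obtain ⟨v, hv, rfl⟩ := hx; exact hn v hv
        | zero => exact fm_zero _
        | add x y _ _ i j => rw [fm_add, i, j, add_zero]
      have := k _ d
      rw [fm_add, b e (by simp), ← hp, ← bz_xor] at this
      have := bz_inj (b := false) this
      revert this
      rw [c]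
      cases par e.1 s.2.1 <;> cases e.2 <;> simp
  | cons p t =>
    have hy : p ∈ s.2.2.filter fun v => par e.1 v := by rw [hF]; exact List.mem_cons_self
    obtain ⟨hpB, hp2⟩ := List.mem_filter.1 hy
    have hp1 : fm e.1 (vec U p) = 1 := by rw [← hp, hp2]; rfl
    simp only [lcase]
    refine ⟨fun hs x hx => ?_, fun v hv x hx => ?_, fun τ a b => ?_⟩
    · rw [vec_cond, fm_add, fm_smul]
      rcases List.mem_append.1 hx with hx | hx
      · rw [h2 p hpB x hx, h1 hs x hx, mul_zero, add_zero]
      · rw [List.mem_singleton.1 hx, hp1, bz_xor, hp, mul_one, ← add_assoc, z2_add, zero_add]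
    · obtain ⟨w, hw, rfl⟩ := List.mem_map.1 hv
      rw [vec_cond, fm_add, fm_smul]
      rcases List.mem_append.1 hx with hx | hx
      · rw [h2 p hpB x hx, h2 w hw x hx, mul_zero, add_zero]
      · rw [List.mem_singleton.1 hx, hp1, hp, mul_one, z2_add]
    · obtain ⟨c, d⟩ := h3 τ a fun x hx => b x (List.mem_append_left _ hx)
      refine ⟨c, ?_⟩
      have k : ∀ w ∈ sp U s.2.2, w + fm e.1 w • vec U p ∈
          sp U (s.2.2.map fun v => cond (par e.1 v) (ad U v p) v) := fun w hw => by
        induction hw using AddSubmonoid.closure_induction with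
        | mem x hx =>
          obtain ⟨v, hv, rfl⟩ := hx
          exact AddSubmonoid.subset_closure ⟨_, List.mem_map_of_mem hv, by rw [vec_cond, hp]⟩
        | zero => rw [fm_zero, zero_smul, add_zero]; exact AddSubmonoid.zero_mem _
        | add x y _ _ i j =>
          have := AddSubmonoid.add_mem _ i j
          rw [fm_add, add_smul]
          convert this using 1
          abel
      have := k _ d
      rw [fm_add, b e (by simp), ← hp, ← bz_xor, Bool.xor_comm] at this
      rw [vec_cond, ← add_assoc]
      exact this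

theorem inv_fold {U : List ℕ} (D : List (List ℕ × Bool)) (h : ∀ e ∈ D, ∀ i ∈ e.1, i ∈ U) :
    Inv U D (D.foldl (step U) (init U)) := by
  induction D using List.reverseRecOn with
  | nil => exact inv_init U
  | append_singleton D e ih =>
    rw [List.foldl_append, List.foldl_cons, List.foldl_nil]
    exact inv_step (h e (by simp)) (ih fun x hx => h x (List.mem_append_left _ hx))

end Lin

open Lin in
theorem p_Lin : S_Lin := by
  have h := pt_run
  refine ⟨fun D => ((run D).1, (run D).2.1), by fun_prop, fun D => ?_⟩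
  have hU : ∀ e ∈ D, ∀ i ∈ e.1, i ∈ uni D := fun e he i hi => List.mem_flatMap.2 ⟨e, he, hi⟩
  obtain ⟨h1, -, h3⟩ := inv_fold D hU
  refine ⟨fun ⟨σ, hσ⟩ => ?_, fun hs e he => ?_⟩
  · refine (h3 (fun i => bz (σ i && memb i (uni D))) (fun i hi => ?_) fun e he => ?_).1
    · simp [memb_iff.2 hi, bz]
    · rw [← (ev_iff σ e).1 (hσ e he)]
      exact fm_congr fun i hi => by simp [memb_true.2 (hU e he i hi)]
  · rw [ev_iff, ← h1 hs e he]
    exact fm_congr fun i hi => by simp [vec, run, memb_true.2 (hU e he i hi)]

end Pool.Agent.P.MP_e0c037_lc.WP
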