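import Pool.Agent.P.MP_e0c037_lc.WP.Base

/-! Weights that give hardness for negative `q` and for large `q`. -/

namespace Pool.Agent.P.MP_e0c037_lc.WP

namespace NegQ

variable {q y b : ℝ} {I : ℝ → Prop}

theorem large (h : Cl q I) (hb : I b) (h1 : 1 < b) (M : ℝ) : ∃ s, I s ∧ M < s := by
  obtain ⟨j, hj⟩ := pow_unbounded_of_one_lt M h1
  refine ⟨b ^ (j + 1), h.pow hb (by rw [abs_of_pos (by linarith)]; exact h1.ne') j, ?_⟩
  exact hj.trans_le (pow_le_pow_right₀ h1.le (Nat.le_succ j))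

theorem small (h : Cl q I) (hb : I b) (h0 : 0 < b) (h1 : b < 1) {e : ℝ} (he : 0 < e) :
    ∃ s, I s ∧ 0 < s ∧ s < 1 ∧ s < e := by
  obtain ⟨j, hj⟩ := exists_pow_lt_of_lt_one he h1
  refine ⟨b ^ (j + 1), h.pow hb (by rw [abs_of_pos h0]; exact h1.ne) j, pow_pos h0 _,
    pow_lt_one₀ h0.le h1 (Nat.succ_ne_zero j), ?_⟩
  exact (pow_le_pow_of_le_one h0.le h1.le (Nat.le_succ j)).trans_lt hj

theorem low (h : Cl q I) (hy : I y) (h0 : y < 0) (hb : I b) (h1 : 1 < b) (M : ℝ) :
    ∃ t, I t ∧ t < M := by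
  obtain ⟨s, hs, h2⟩ := large h hb h1 (max 0 (M / y))
  have h3 : 0 < s := (le_max_left _ _).trans_lt h2
  have h4 : M / y < s := (le_max_right _ _).trans_lt h2
  have h5 : y * s < 0 := mul_neg_of_neg_of_pos h0 h3
  refine ⟨y * s, h.par _ _ hy hs (by linarith), ?_⟩
  rw [div_lt_iff_of_neg h0] at h4
  linarith

/-- For negative `q`, a second coordinate above one gives a weight in the unit interval. -/
theorem unit (hq : q < 0) (h : Cl q I) {t : ℝ} (ht : Dl q I t) (h1 : 1 < t) :
    ∃ z, I z ∧ 0 < z ∧ z < 1 := by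
  obtain ⟨s, hs, h2⟩ := large (h.dual hq.ne) ht h1 (1 - q)
  have h3 : 1 - s < 0 := by linarith
  have h4 : 0 < q / (1 - s) := div_pos_of_neg_of_neg hq h3
  have h5 : q / (1 - s) < 1 := by rw [div_lt_one_of_neg h3]; linarith
  exact ⟨X q s, hs.2, by unfold X; linarith, by unfold X; linarith⟩

theorem gt_one (hq : q < 0) (hy : y < 1) : 1 < X q y := by
  have : q / (1 - y) < 0 := div_neg_of_neg_of_pos hq (by linarith)
  unfold X
  linarith

theorem sq_lt (hq : 2 ≤ q) (h0 : y < 0) (h1 : -1 < y) : 1 < |X q (y ^ 2)| := by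
  have a1 : 0 < y ^ 2 := by nlinarith
  have a2 : y ^ 2 < 1 := by nlinarith
  have a3 : q < q / (1 - y ^ 2) := by
    rw [lt_div_iff₀ (by linarith)]
    nlinarith
  have a4 : X q (y ^ 2) < -1 := by unfold X; linarith
  rw [abs_of_neg (by linarith)]
  linarith

end NegQ

open NegQ

theorem p_NegQ : S_NegQ := by
  intro q I y hq h hy hc
  have fin : ∀ z, I z → 0 < z → z < 1 → ∃ z, I z ∧ z ≠ 0 ∧ |z| < 1 := fun z a b c =>
    ⟨z, a, b.ne', by rwa [abs_of_pos b]⟩
  have hx := h.dl hq.ne hy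
  rcases hc with hc | hc
  · obtain ⟨z, a, b, c⟩ := unit hq h hx (gt_one hq (by linarith))
    exact ⟨⟨y, hy, hc⟩, fin z a b c⟩
  · have hd := h.dual hq.ne
    have y1 : 1 < y := by
      have := gt_one hq (y := X q y) (by linarith)
      rwa [X_X hq.ne (h.ne y hy)] at this
    obtain ⟨t, ht, t1⟩ := hd.big hx (by rw [abs_of_neg (by linarith)]; linarith)
    obtain ⟨z, a, b, c⟩ := unit hq h ht t1
    refine ⟨?_, fin z a b c⟩
    obtain ⟨s, hs, s1⟩ := large h hy y1 (2 - q)
    have s2 : 1 - s < 0 := by linarith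
    have e1 : 0 < q / (1 - s) := div_pos_of_neg_of_neg hq s2
    have e2 : q / (1 - s) * (1 - q) < -q := by
      rw [div_mul_eq_mul_div, div_lt_iff_of_neg s2]
      nlinarith
    have d1 := h.dl hq.ne hs
    have x1 : X q s < 1 := by unfold X; linarith
    have x2 : 1 < X q s * (1 - q) := by unfold X; linarith
    have x0 : 0 < X q s := by
      by_contra hn
      nlinarith [not_lt.1 hn]
    generalize X q s = u at d1 x0 x1 x2
    have p1 : 0 < 1 - q - u := by linarith
    obtain ⟨r, hr, r0, r1, r2⟩ := small h a b c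
      (e := (1 - q) * (1 - u) / (1 - q - u)) (div_pos (mul_pos (by linarith) (by linarith)) p1)
    rw [lt_div_iff₀ p1] at r2
    have d2 := h.dl hq.ne hr
    have r3 : 0 < 1 - r := by linarith
    have f1 : 1 - q < X q r := by
      have : q / (1 - r) < q := by
        rw [div_lt_iff₀ r3]
        nlinarith
      unfold X
      linarith
    have f2 : u * X q r < 1 - q := by
      have : X q r = (1 - r - q) / (1 - r) := by
        unfold X
        field_simp
      rw [this, ← mul_div_assoc, div_lt_iff₀ r3]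
      nlinarith
    have f3 : 1 < u * X q r := by nlinarith
    have d3 := hd.par _ _ d1 d2 f3.ne'
    have f4 : X q (u * X q r) < 0 := by
      have : 1 < q / (1 - u * X q r) := by
        rw [one_lt_div_of_neg (by linarith)]
        linarith
      generalize u * X q r = w at this
      unfold X
      linarith
    exact low h d3.2 f4 hy y1 (-1)

theorem p_Five : S_Five := by
  rintro q I hq h ⟨b, hb, b1⟩ ⟨y, hy, y0⟩ ⟨y', hy', x0⟩
  refine ⟨low h hy y0 hb b1 (-1), ?_⟩
  obtain ⟨t, ht, t1⟩ := low (h.dual hq.ne') (h.dl hq.ne' hy') x0 (h.dl hq.ne' hb) (X_gt hq b1)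
    (1 - q)
  have a1 : 0 < 1 - t := by linarith
  have a2 : q / (1 - t) < 1 := by rw [div_lt_one a1]; linarith
  have a3 : 0 < X q t := by unfold X; linarith
  exact ⟨X q t, ht.2, a3.ne', by rw [abs_of_pos a3]; exact X_lt hq (by linarith)⟩

theorem p_High : S_High := by
  intro q I y hq h hy y0 x0 hn
  have q0 : 0 < q := by linarith
  have hd := h.dual q0.ne'
  have hx := h.dl q0.ne' hy
  rcases lt_trichotomy y (-1) with a | a | a
  · exact h.big hy (by rw [abs_of_neg y0]; linarith)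
  · rcases lt_trichotomy (X q y) (-1) with c | c | c
    · exact Big.of_dual q0 (hd.big hx (by rw [abs_of_neg x0]; linarith))
    · exact absurd ⟨a, c⟩ hn
    · have d := hd.pow hx (by rw [abs_of_neg x0]; linarith) 1
      exact h.big d.2 (sq_lt hq x0 c)
  · have d := h.pow hy (by rw [abs_of_neg y0]; linarith) 1
    exact Big.of_dual q0 (hd.big (h.dl q0.ne' d) (sq_lt hq y0 a))

end Pool.Agent.P.MP_e0c037_lc.WP
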