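import Pool.Agent.P.MP_e0c037_lc.WP.Base

/-! The sign for negative `q` and weights between minus two and zero, and the duality formula. -/

namespace Pool.Agent.P.MP_e0c037_lc.WP

open Finset Function Pool.Agent.Lib.helper21 SG

namespace R1

theorem pos_aux {q : ℝ} (hq : q < 0) (N : ℕ) :
    ∀ (k : KF) (v : ℕ → ℝ) (E : Finset ℕ), E.card = N → IsK k →
      (∀ e ∈ E, -2 ≤ v e ∧ v e ≤ 0) → (∀ e ∈ E, k {e} + 1 = k ∅) →
      0 < (-1) ^ k ∅ * Zk q k v E := by
  induction N with
  | zero =>
    intro k v E hE _ _ _
    rw [card_eq_zero.1 hE, Zk_empty, ← mul_pow]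
    exact pow_pos (by linarith) _
  | succ N ih =>
    intro k v E hE hk hv hl
    obtain ⟨e, he⟩ : E.Nonempty := card_pos.1 (by omega)
    by_cases hp : ∃ g ∈ E, e ≠ g ∧ k {e, g} + 1 = k ∅
    · obtain ⟨g, hg, heg, hp⟩ := hp
      rw [Zk_par he hg heg (par_eq hk (hl e he) hp)
        (par_eq hk (hl g hg) (by rw [pair_comm]; exact hp))]
      refine ih k _ _ (by rw [card_erase_of_mem hg]; omega) hk (fun x hx => ?_)
        fun x hx => hl x (mem_of_mem_erase hx)
      by_cases hx' : x = e
      · subst hx'
        rw [update_self]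
        obtain ⟨a1, a2⟩ := hv x he
        obtain ⟨b1, b2⟩ := hv g hg
        constructor <;> nlinarith
      · rw [update_of_ne hx']
        exact hv x (mem_of_mem_erase hx)
    · have hc : (E.erase e).card = N := by rw [card_erase_of_mem he]; omega
      have i1 := ih k v _ hc hk (fun x hx => hv x (mem_of_mem_erase hx))
        fun x hx => hl x (mem_of_mem_erase hx)
      have h0 : con k e ∅ + 1 = k ∅ := by
        unfold con
        rw [insert_empty_eq]
        exact hl e he
      have i2 := ih (con k e) v _ hc (hk.con e) (fun x hx => hv x (mem_of_mem_erase hx))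
        fun x hx => by
          have h1 : ¬ (k {e, x} + 1 = k ∅) := fun h =>
            hp ⟨x, mem_of_mem_erase hx, (ne_of_mem_erase hx).symm, h⟩
          have h2 := (hk.con e).le ∅ x
          have h3 := (hk.con e).ge ∅ x
          rw [insert_empty_eq] at h2 h3
          have h4 : con k e {x} = k {e, x} := rfl
          omega
      rw [← h0, pow_succ] at i1
      rw [Zk_erase he, ← h0, pow_succ]
      have := mul_nonneg (neg_nonneg.2 (hv e he).2) i2.le
      linarith

theorem loops {q v : ℝ} {k : KF} (hk : IsK k) (T : Finset ℕ) :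
    ∀ E : Finset ℕ, T ⊆ E → (∀ e ∈ T, k {e} = k ∅) →
      Zk q k (fun _ => v) E = (1 + v) ^ T.card * Zk q k (fun _ => v) (E \ T) := by
  induction T using Finset.induction_on with
  | empty => intro E _ _; simp
  | insert e T he ih =>
    intro E hT hl
    have heE : e ∈ E := hT (mem_insert_self _ _)
    have hc : con k e = k := by
      funext A
      exact hk.dim ∅ A e (empty_subset _) (by rw [insert_empty_eq]; exact hl e (mem_insert_self _ _))
    rw [Zk_erase heE, hc, ih (E.erase e) (fun x hx => mem_erase.2
      ⟨fun h => he (h ▸ hx), hT (mem_insert_of_mem hx)⟩) fun x hx => hl x (mem_insert_of_mem hx),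
      card_insert_of_notMem he, sdiff_insert, erase_sdiff_comm]
    ring

theorem sign_pow_int (x : ℝ) (n : ℕ) :
    ((SignType.sign (x ^ n) : SignType) : ℤ) = ((SignType.sign x : SignType) : ℤ) ^ n := by
  rw [sign_pow, SignType.coe_pow]

end R1

theorem p_R1 : S_R1 := by
  intro κ k q v o hq h1 h2
  have hκ := o.pt
  refine ⟨fun G => (-1) ^ κ (G, []) * ((SignType.sign (1 + v) : SignType) : ℤ) ^
    ((List.range G.2.length).filter fun i => decide (κ (G, [i]) = κ (G, []))).length,
    by fun_prop, fun G hG => ?_⟩
  have hk := o.isK G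
  have e0 : κ (G, []) = k G ∅ := by simpa using o.eq G hG [] (by simp)
  have e1 : ∀ i, i < G.2.length → κ (G, [i]) = k G {i} := fun i hi => by
    simpa using o.eq G hG [i] (by simpa using hi)
  have e2 : ((List.range G.2.length).filter fun i => decide (κ (G, [i]) = κ (G, []))).length =
      ((range G.2.length).filter fun i => k G {i} = k G ∅).card := by
    rw [← List.toFinset_card_of_nodup (List.nodup_range.filter _)]
    congr 1
    ext i
    simp only [List.mem_toFinset, List.mem_filter, List.mem_range, decide_eq_true_eq, mem_filter,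
      mem_range]
    exact and_congr_right fun hi => by rw [e1 i hi, e0]
  dsimp only
  rw [e2, e0, R1.loops hk _ _ (filter_subset (fun i => k G {i} = k G ∅) _)
    (fun e he => (mem_filter.1 he).2), sign_mul, SignType.coe_mul, R1.sign_pow_int, mul_comm]
  congr 1
  have h3 := R1.pos_aux hq _ (k G) (fun _ => v)
    (range G.2.length \ (range G.2.length).filter fun i => k G {i} = k G ∅) rfl hk
    (fun _ _ => ⟨h1, h2⟩) fun e he => by
      obtain ⟨a1, a2⟩ := mem_sdiff.1 he
      have a3 : k G {e} ≠ k G ∅ := fun h => a2 (mem_filter.2 ⟨a1, h⟩)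
      have a4 := hk.le ∅ e
      have a5 := hk.ge ∅ e
      rw [insert_empty_eq] at a4 a5
      omega
  rcases Nat.even_or_odd (k G ∅) with h | h
  · rw [h.neg_one_pow, one_mul] at h3
    rw [h.neg_one_pow, sign_pos h3]
    rfl
  · rw [h.neg_one_pow] at h3
    rw [h.neg_one_pow, sign_neg (by linarith)]
    rfl

theorem p_Dual2 : S_Dual2 := by
  intro G q v hq hv
  unfold dichromatic Zk
  rw [mul_sum]
  refine sum_nbij' (fun A => range G.2.length \ A) (fun A => range G.2.length \ A)
    (fun A _ => mem_powerset.2 sdiff_subset) (fun A _ => mem_powerset.2 sdiff_subset)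
    (fun A hA => Finset.sdiff_sdiff_eq_self (mem_powerset.1 hA))
    (fun A hA => Finset.sdiff_sdiff_eq_self (mem_powerset.1 hA)) fun A hA => ?_
  have hA' := mem_powerset.1 hA
  have h1 := card_sdiff_add_card_eq_card hA'
  rw [card_range] at h1
  unfold kd
  rw [Finset.sdiff_sdiff_eq_self hA', prod_const]
  generalize (range G.2.length \ A).card = b at h1 ⊢
  rw [← h1, pow_add, pow_add, div_pow, div_pow, div_pow]
  field_simp

end Pool.Agent.P.MP_e0c037_lc.WP
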