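import Pool.Agent.P.MP_e0c037_lc.WP.Base

/-! The points `(2, -1)` and `(2, -2)`. -/

namespace Pool.Agent.P.MP_e0c037_lc.WP

open Finset Pool.Agent.Lib.helper21 SG R3

namespace Two

theorem potts {G : Inp} (hG : Valid G) (v : ℝ) :
    dichromatic G.1 G.2 2 v = ∑ σ : Fin G.1 → Fin 2,
      (G.2.map fun e => 1 + v * dl (List.ofFn fun i => (σ i : ℕ)) e.1 e.2).prod := by
  have := Zw_nat 2 G.1 (G.2.map fun e => (e.1, e.2, 1, v))
    (List.forall_mem_map.2 fun e he => hG e he)
  rw [dichromatic_eq, ← Nat.cast_ofNat, this, SL_ofFn]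
  refine sum_congr rfl fun σ _ => ?_
  rw [Wt, List.map_map]
  rfl

theorem dl_ofFn {n : ℕ} (σ : Fin n → Fin 2) {u w : ℕ} (hu : u < n) (hw : w < n) :
    dl (List.ofFn fun i => (σ i : ℕ)) u w = if σ ⟨u, hu⟩ = σ ⟨w, hw⟩ then 1 else 0 := by
  simp [dl, hu, hw, Fin.ext_iff]

theorem ev_iff (σ : ℕ → Bool) (u w : ℕ) : Ev σ ([u, w], true) ↔ σ u ≠ σ w := by
  unfold Ev
  cases hu : σ u <;> cases hw : σ w <;> simp [hu, hw]

theorem prod_nonneg' {L : List (ℕ × ℕ)} (l : List ℕ) :
    0 ≤ (L.map fun e => 1 + (-1 : ℝ) * dl l e.1 e.2).prod := by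
  refine List.prod_nonneg fun a ha => ?_
  obtain ⟨e, _, rfl⟩ := List.mem_map.1 ha
  unfold dl
  split_ifs <;> norm_num

theorem one (h : S_Lin) : Easy 2 (-1) := by
  obtain ⟨sol, ps, hs⟩ := h
  refine ⟨fun G => cond (sol (G.2.map fun e => ([e.1, e.2], true))).1 1 0, by fun_prop,
    fun G hG => ?_⟩
  obtain ⟨h1, h2⟩ := hs (G.2.map fun e => ([e.1, e.2], true))
  dsimp only
  rw [potts hG]
  cases hb : (sol (G.2.map fun e => ([e.1, e.2], true))).1
  · rw [sum_eq_zero, sign_zero]
    · rfl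
    intro σ _
    by_contra hne
    refine absurd (h1 ⟨fun i => decide (∃ hi : i < G.1, σ ⟨i, hi⟩ = 1),
      List.forall_mem_map.2 fun e he => ?_⟩) (by simp [hb])
    obtain ⟨hu, hw⟩ := hG e he
    have h3 : 1 + (-1 : ℝ) * dl (List.ofFn fun i => (σ i : ℕ)) e.1 e.2 ≠ 0 := fun h0 =>
      hne (List.prod_eq_zero (List.mem_map.2 ⟨e, he, h0⟩))
    rw [dl_ofFn σ hu hw] at h3
    have h4 : σ ⟨e.1, hu⟩ ≠ σ ⟨e.2, hw⟩ := fun h0 => h3 (by rw [if_pos h0]; norm_num)
    rw [ev_iff]
    simp only [hu, hw, exists_true_left, ne_eq, decide_eq_decide]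
    revert h4
    generalize σ ⟨e.1, hu⟩ = a
    generalize σ ⟨e.2, hw⟩ = b
    revert a b
    decide
  · rw [sign_pos]
    · rfl
    have h3 := List.forall_mem_map.1 (h2 hb)
    generalize (sol (G.2.map fun e => ([e.1, e.2], true))).2 = K at h3
    refine sum_pos' (fun σ _ => prod_nonneg' _)
      ⟨fun i => cond (memb i K) 1 0, mem_univ _, List.prod_pos fun a ha => ?_⟩
    obtain ⟨e, he, rfl⟩ := List.mem_map.1 ha
    obtain ⟨hu, hw⟩ := hG e he
    have h4 := (ev_iff _ _ _).1 (h3 e he)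
    rw [dl_ofFn _ hu hw, if_neg]
    · norm_num
    · revert h4
      dsimp only
      cases memb e.1 K <;> cases memb e.2 K <;> decide

/-- The list of all ends of edges. -/
def ends (G : Inp) : List ℕ := G.2.flatMap fun e => [e.1, e.2]

/-- The degree of a vertex. -/
def dg (G : Inp) (i : ℕ) : ℕ := ((ends G).filter fun x => decide (x = i)).length

theorem prod_count (n : ℕ) (s : ℕ → ℝ) (l : List ℕ) (hl : ∀ x ∈ l, x < n) :
    (l.map s).prod = ∏ i : Fin n, s i ^ (l.filter fun x => decide (x = i.1)).length := by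
  induction l with
  | nil => simp
  | cons a l ih =>
    obtain ⟨ha, h⟩ := List.forall_mem_cons.1 hl
    have e : ∀ i : Fin n, s i ^ ((a :: l).filter fun x => decide (x = i.1)).length =
        (if i = ⟨a, ha⟩ then s i else 1) * s i ^ (l.filter fun x => decide (x = i.1)).length := by
      intro i
      by_cases hi : i = ⟨a, ha⟩
      · subst hi; simp [pow_succ']
      · have : a ≠ i := fun h0 => hi (Fin.ext h0.symm)
        simp [hi, this]
    rw [List.map_cons, List.prod_cons, ih h, prod_congr rfl fun i _ => e i, prod_mul_distrib,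
      prod_ite_eq']
    simp

theorem prod_ends (s : ℕ → ℝ) (L : List (ℕ × ℕ)) :
    (L.map fun e => -(s e.1 * s e.2)).prod =
      (-1) ^ L.length * ((L.flatMap fun e => [e.1, e.2]).map s).prod := by
  induction L with
  | nil => simp
  | cons e L ih =>
    simp only [List.map_cons, List.prod_cons, ih, List.flatMap_cons, List.length_cons,
      List.cons_append, List.nil_append]
    ring

theorem ztwo {G : Inp} (hG : Valid G) :
    dichromatic G.1 G.2 2 (-2) = (-1) ^ G.2.length * ∏ i : Fin G.1, (1 + (-1) ^ dg G i) := by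
  have e : ∀ i : Fin G.1, (1 + (-1) ^ dg G i : ℝ) = ∑ c : Fin 2, ((-1) ^ (c : ℕ)) ^ dg G i :=
    fun i => by simp [Fin.sum_univ_two]
  rw [potts hG, prod_congr rfl fun i _ => e i, prod_univ_sum, Fintype.piFinset_univ, mul_sum]
  refine sum_congr rfl fun σ _ => ?_
  have h1 := prod_count G.1 (fun i => if hi : i < G.1 then (-1) ^ (σ ⟨i, hi⟩ : ℕ) else 1) (ends G)
    fun x hx => by
      obtain ⟨e, he, hx⟩ := List.mem_flatMap.1 hx
      have := hG e he
      simp only [List.mem_cons, List.not_mem_nil, or_false] at hx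
      rcases hx with rfl | rfl
      exacts [this.1, this.2]
  simp only [Fin.is_lt, dite_true, Fin.eta] at h1
  unfold dg
  rw [← h1, ends, ← prod_ends]
  refine congrArg List.prod (List.map_congr_left fun e he => ?_)
  obtain ⟨hu, hw⟩ := hG e he
  rw [dl_ofFn σ hu hw, dif_pos hu, dif_pos hw]
  generalize σ ⟨e.1, hu⟩ = a
  generalize σ ⟨e.2, hw⟩ = b
  fin_cases a <;> fin_cases b <;> norm_num

theorem two : Easy 2 (-2) := by
  refine ⟨fun G => cond ((List.range G.1).all fun i => decide ((-1 : ℤ) ^ dg G i = 1))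
    ((-1) ^ G.2.length) 0, by unfold dg ends; fun_prop, fun G hG => ?_⟩
  dsimp only
  rw [ztwo hG]
  cases hb : (List.range G.1).all fun i => decide ((-1 : ℤ) ^ dg G i = 1)
  · obtain ⟨i, hi, h1⟩ := List.all_eq_false.1 hb
    have h2 : Odd (dg G i) := by
      rw [← Nat.not_even_iff_odd]
      exact fun h0 => h1 (by simp [h0.neg_one_pow])
    rw [prod_eq_zero (mem_univ (⟨i, List.mem_range.1 hi⟩ : Fin G.1))
      (by simp [h2.neg_one_pow]), mul_zero, sign_zero]
    rfl
  · have h1 : 0 < ∏ i : Fin G.1, (1 + (-1) ^ dg G i : ℝ) := prod_pos fun i _ => by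
      have h2 := List.all_eq_true.1 hb i (List.mem_range.2 i.2)
      rcases Nat.even_or_odd (dg G i) with h | h
      · rw [h.neg_one_pow]; norm_num
      · simp [h.neg_one_pow] at h2
    rw [sign_mul, sign_pos h1, mul_one]
    rcases Nat.even_or_odd G.2.length with h | h <;> simp [h.neg_one_pow]

end Two

theorem p_Two (h : S_Lin) : S_Two := ⟨Two.one h, Two.two⟩

end Pool.Agent.P.MP_e0c037_lc.WP
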