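import Pool.Agent.P.MP_e0c037_lc.WP.Strip
import Pool.Agent.P.MP_e0c037_lc.WP.Eng
import Pool.Agent.P.MP_e0c037_lc.WP.NegQ
import Pool.Agent.P.MP_e0c037_lc.WP.Low
import Pool.Agent.P.MP_e0c037_lc.WP.Iter
import Pool.Agent.P.MP_e0c037_lc.WP.Chrom
import Pool.Agent.P.MP_e0c037_lc.WP.Flow
import Pool.Agent.P.MP_e0c037_lc.WP.HLow
import Pool.Agent.P.MP_e0c037_lc.WP.HRest
import Pool.Agent.P.MP_e0c037_lc.WP.R1
import Pool.Agent.P.MP_e0c037_lc.WP.Triv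
import Pool.Agent.P.MP_e0c037_lc.WP.Int
import Pool.Agent.P.MP_e0c037_lc.WP.Lin
import Pool.Agent.P.MP_e0c037_lc.WP.Two
import Pool.Agent.P.MP_e0c037_lc.WP.Four
import Pool.Agent.P.MP_e0c037_lc.BD.Glue
import Pool.Agent.P.MP_e0c037_lc.BD.Num
import Pool.Agent.P.MP_e0c037_lc.BD.Cp
import Pool.Agent.P.MP_e0c037_lc.BD.LiftB
import Pool.Agent.P.MP_e0c037_lc.BD.Shad
import Pool.Agent.P.MP_e0c037_lc.BD.StepB
import Pool.Agent.P.MP_e0c037_lc.BD.Bnd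
import Pool.Agent.P.MP_e0c037_lc.BD.MainB
import Pool.Agent.P.MP_e0c037_lc.BD.PA
import Pool.Agent.P.MP_e0c037_lc.BD.SA
import Pool.Agent.P.MP_e0c037_lc.BD.G0
import Pool.Agent.P.MP_e0c037_lc.BD.G1
import Pool.Agent.P.MP_e0c037_lc.BD.G2
import Pool.Agent.P.MP_e0c037_lc.BD.G3
import Pool.Agent.P.MP_e0c037_lc.BD.CLB
import Pool.Agent.P.MP_e0c037_lc.BD.Norm
import Pool.Agent.P.MP_e0c037_lc.BD.AlgoB

/-! The classification on the whole plane. -/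

namespace Pool.Agent.P.MP_e0c037_lc.WP

theorem dia : S_Dia :=
  BD.dia_of fun _ _ hq hq1 r0 r1 =>
    BD.easy_bd BD.p_Num BD.p_Cp (BD.p_Step SG.p_Tor BD.p_Lift BD.p_Shad) BD.p_Bnd BD.p_Main
      (BD.p_CL BD.p_G0 (BD.p_G1 SG.p_Con SG.p_Cmp) BD.p_G2
        (BD.p_G3 (SG.p_Reg SG.p_Dc) SG.p_Dc SG.p_Cmp BD.p_SA) BD.p_PA (SG.p_T3 SG.p_Cmp))
      (BD.p_Algo BD.p_Norm SG.p_Parts SG.p_Dual (SG.p_Mc SG.p_Con)) (SG.p_Mc SG.p_Con)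
      hq hq1 r0 r1

theorem easy {q v : ℝ} (h : EasyAt q v) : InP q v :=
  easy_at (fun _ _ => easy_all (p_Triv p_R1 p_Dual2 SG.p_Dual) dia p_Int (p_Two p_Lin)
    (p_Four p_Lin)) h

theorem hard {q v : ℝ} (he : ¬ EasyAt q v) (hl : ¬ LeftAt q v) : Hard q v :=
  hard_at (fun _ _ => hard_all
    (p_HLow p_Eng p_Low (p_One SG.p_Esc) (p_Iter (p_One SG.p_Esc)))
    (p_HRest p_Eng p_NegQ p_Five p_High p_Chrom (p_Flow p_Five))) he hl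

end Pool.Agent.P.MP_e0c037_lc.WP
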