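import Pool.Agent.P.MP_e0c037_lc.WP.Defs

/-! Gadgets for all `q` other than zero and one, and closed sets of weights. -/

namespace Pool.Agent.P.MP_e0c037_lc.WP

open Finset R3

section sub

variable {N n : ℕ} {L L' F : List WE} {E : List (ℕ × ℕ)} {x q v a b a' b' : ℝ} {u w : ℕ}

theorem gsubst {G : List (ℕ × ℕ)} (h : Gad q v n G a b) (hq : q ≠ 0 ∧ q ≠ 1) (hF : Val N F) (hu : u < N)
    (hw : w < N) : Zw q (N + n) (U 1 v (glue G u w N) ++ F) = Zw q N ((u, w, a, b) :: F) := by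
  have : q * (q - 1) ≠ 0 := mul_ne_zero hq.1 (sub_ne_zero.2 hq.2)
  refine mul_left_cancel₀ this ?_
  rw [subst0 h.1 hF hu hw, h.2.1, h.2.2, Zw_cons (a := a) hF hu hw]
  ring

theorem gbuild {G : List (ℕ × ℕ)} (h : Gad q v n G a b) (hq : q ≠ 0 ∧ q ≠ 1) (hE : ValU N E) :
    ValU (N + E.length * n) (build G n N E) ∧ ∀ F, Val N F →
      Zw q (N + E.length * n) (U 1 v (build G n N E) ++ F) = Zw q N (U a b E ++ F) := by
  induction E using List.reverseRecOn with
  | nil => exact ⟨fun e he => by simp [R3.build] at he, fun F _ => by simp [R3.build, U]⟩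
  | append_singleton E e ih =>
    obtain ⟨h1, h2⟩ := List.forall_mem_append.1 hE
    obtain ⟨h3, h4⟩ := h2 e (by simp)
    obtain ⟨i1, i2⟩ := ih h1
    have h5 := glue_val (N := N + E.length * n) (u := e.1) (w := e.2) h.1 (by omega) (by omega)
    rw [build_snoc, List.length_append, List.length_singleton, Nat.succ_mul, ← add_assoc]
    refine ⟨List.forall_mem_append.2 ⟨i1.mono (by omega), h5⟩, fun F hF => ?_⟩
    have h6 := (i1.U (a := 1) (b := v)).append (hF.mono (by omega))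
    rw [Zw_congr (L' := U 1 v (glue G e.1 e.2 (N + E.length * n)) ++ (U 1 v (R3.build G n N E) ++ F))
      ((ValU.U (List.forall_mem_append.2 ⟨i1.mono (by omega), h5⟩)).append (hF.mono (by omega)))
      (h5.U.append (h6.mono (by omega))) (fun l => by simp; ring),
      gsubst h hq h6 (by omega) (by omega),
      Zw_congr (L' := U 1 v (R3.build G n N E) ++ ((e.1, e.2, a, b) :: F))
        (h6.cons (by omega) (by omega)) (i1.U.append ((hF.cons h3 h4).mono (by omega)))
        (fun l => by simp; ring), i2 _ (hF.cons h3 h4)]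
    simp [U]

theorem grealize (hq : q ≠ 0 ∧ q ≠ 1) (hL : Val N L) (h : ∀ e ∈ L, Impl q v e.2.2.1 e.2.2.2) :
    ∃ n E, ValU (N + n) E ∧ ∀ F, Val N F → Zw q (N + n) (U 1 v E ++ F) = Zw q N (L ++ F) := by
  induction L with
  | nil => exact ⟨0, [], fun e he => by simp at he, fun F _ => by simp [U]⟩
  | cons e L ih =>
    obtain ⟨u, w, a, b⟩ := e
    obtain ⟨⟨h3, h4⟩, h1⟩ := List.forall_mem_cons.1 hL
    obtain ⟨⟨n, G, hG⟩, h2⟩ := List.forall_mem_cons.1 h
    obtain ⟨m, E, i1, i2⟩ := ih h1 h2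
    dsimp only at h3 h4 hG
    have h5 := glue_val (N := N + m) (u := u) (w := w) hG.1 (by omega) (by omega)
    refine ⟨m + n, glue G u w (N + m) ++ E, ?_, fun F hF => ?_⟩
    · rw [← add_assoc]; exact List.forall_mem_append.2 ⟨h5, i1.mono (by omega)⟩
    have h6 := (i1.U (a := 1) (b := v)).append (hF.mono (by omega))
    rw [← add_assoc, U_append, List.append_assoc, gsubst hG hq h6 (by omega) (by omega),
      Zw_congr (L' := U 1 v E ++ ((u, w, a, b) :: F)) (h6.cons (by omega) (by omega))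
        (i1.U.append ((hF.cons h3 h4).mono (by omega))) (fun l => by simp; ring),
      i2 _ (hF.cons h3 h4)]
    exact Zw_congr (Val.append h1 (hF.cons h3 h4)) (hL.append hF) fun l => by simp; ring

theorem of_gadget (hq : q ≠ 0 ∧ q ≠ 1) (hL : Val (n + 2) L) (h : ∀ e ∈ L, Impl q v e.2.2.1 e.2.2.2)
    (h0 : Zw q (n + 2) L = q ^ 2 * a + q * b)
    (h1 : Zw q (n + 2) ((0, 1, 0, 1) :: L) = q * (a + b)) : Impl q v a b := by
  obtain ⟨m, E, i1, i2⟩ := grealize hq hL h
  have h2 : Val (n + 2) [(0, 1, 0, 1)] := Val.nil.cons (by omega) (by omega)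
  refine ⟨n + m, E, ?_⟩
  rw [Gad, add_right_comm]
  refine ⟨i1, by simpa [h0] using i2 [] Val.nil, ?_⟩
  rw [← h1, Zw_congr (hL.cons (by omega) (by omega)) (hL.append h2) (fun l => by simp; ring),
    ← i2 _ h2]
  exact Zw_congr (i1.U.cons (by omega) (by omega)) (i1.U.append (h2.mono (by omega)))
    fun l => by simp; ring

theorem ipar (hq : q ≠ 0 ∧ q ≠ 1) {c c' : ℝ} (h : Impl q v a (c - a)) (h' : Impl q v a' (c' - a')) :
    Impl q v (a * a') (c * c' - a * a') := by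
  have hL : Val (0 + 2) [(0, 1, a, c - a), (0, 1, a', c' - a')] := by simp [Val]
  refine of_gadget hq hL (by simp [h, h']) (Zw_two hL fun l => ?_) ?_
  · simp only [Wt_cons, Wt_nil, dl]; split_ifs <;> ring
  · rw [Zw_two (a := 0) (b := c * c') (hL.cons (by omega) (by omega)) fun l => by
      simp only [Wt_cons, Wt_nil, dl]; split_ifs <;> ring]
    ring

theorem iser (hq : q ≠ 0 ∧ q ≠ 1) {d d' : ℝ} (h : Impl q v ((d - b) / q) b)
    (h' : Impl q v ((d' - b') / q) b') : Impl q v ((d * d' - b * b') / q) (b * b') := by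
  have hL : Val (1 + 2) [(0, 2, (d - b) / q, b), (2, 1, (d' - b') / q, b')] := by simp [Val]
  have hE : ValU 1 [] := fun e he => by simp at he
  have h1 : Zw q 1 [(0, 0, 0, 1)] = q := by
    rw [Zw_congr (L' := []) (by simp [Val]) Val.nil fun l => by simp [dl], Zw_nil, pow_one]
  have h2 := fun α β => Zw_pend (x := q) (a := (d - b) / q) (b := b) (a' := (d' - b') / q) (b' := b')
    hE one_pos one_pos α β 0 0
  simp only [U, List.map_nil, h1, Zw_nil, zero_add] at h2
  have hq0 : q ≠ 0 := hq.1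
  refine of_gadget hq hL (by simp [h, h']) ?_ ?_
  · rw [Zw_congr hL (hL.cons (u := 0) (w := 1) (a := 1) (b := 0) (by omega) (by omega))
      (fun l => by simp), h2]
    field_simp
    ring
  · rw [h2]
    field_simp
    ring

end sub

variable {q v y z : ℝ} {I : ℝ → Prop}

theorem X_ne (hq : q ≠ 0) (hy : y ≠ 1) : X q y ≠ 1 := by
  have h1 : 1 - y ≠ 0 := sub_ne_zero.2 hy.symm
  unfold X
  intro h
  exact div_ne_zero hq h1 (by linarith)

theorem X_X (hq : q ≠ 0) (hy : y ≠ 1) : X q (X q y) = y := by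
  have h1 : 1 - y ≠ 0 := sub_ne_zero.2 hy.symm
  unfold X
  rw [sub_sub_cancel]
  field_simp
  ring

theorem X_mul (hy : y ≠ 1) : (X q y - 1) * (y - 1) = q := by
  have h1 : 1 - y ≠ 0 := sub_ne_zero.2 hy.symm
  unfold X
  field_simp
  ring

theorem X_base (q v : ℝ) : X q (1 + v) = 1 + q / v := by
  unfold X
  rw [show 1 - (1 + v) = -v by ring, div_neg]
  ring

theorem X_gt (hq : 0 < q) (hy : 1 < y) : 1 < X q y := by
  have : q / (1 - y) < 0 := div_neg_of_pos_of_neg hq (by linarith)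
  unfold X
  linarith

theorem X_lt (hq : 0 < q) (hy : y < 1) : X q y < 1 := by
  have : 0 < q / (1 - y) := div_pos hq (by linarith)
  unfold X
  linarith

theorem Im.base : Im q v (1 + v) := ⟨1, one_ne_zero, by simpa using Impl.base⟩

theorem Im.mul (hq : q ≠ 0 ∧ q ≠ 1) (h : Im q v y) (h' : Im q v z) : Im q v (y * z) := by
  obtain ⟨a, ha, i⟩ := h
  obtain ⟨b, hb, j⟩ := h'
  refine ⟨a * b, mul_ne_zero ha hb, ?_⟩
  have := ipar hq i j
  rwa [show a * y * (b * z) = a * b * (y * z) by ring] at this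

theorem Im.pow (hq : q ≠ 0 ∧ q ≠ 1) (h : Im q v y) (j : ℕ) : Im q v (y ^ (j + 1)) := by
  induction j with
  | zero => simpa using h
  | succ j ih => rw [pow_succ]; exact ih.mul hq h

theorem Im.ser (hq : q ≠ 0 ∧ q ≠ 1) (h : Im q v y) (h' : Im q v z) (hy : y ≠ 1) (hz : z ≠ 1)
    (hx : X q y * X q z ≠ 1) : Im q v (X q (X q y * X q z)) := by
  obtain ⟨a, ha, i⟩ := h
  obtain ⟨b, hb, j⟩ := h'
  have h0 := hq.1
  have key : ∀ {a y : ℝ}, y ≠ 1 → ((a * y - a) * X q y - (a * y - a)) / q = a := fun {a y} hy => by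
    rw [div_eq_iff h0]
    linear_combination a * X_mul (q := q) hy
  have s := iser hq (b := a * y - a) (d := (a * y - a) * X q y) (b' := b * z - b)
    (d' := (b * z - b) * X q z) (by rwa [key hy]) (by rwa [key hz])
  have n1 : a * y - a ≠ 0 := by
    rw [show a * y - a = a * (y - 1) by ring]; exact mul_ne_zero ha (sub_ne_zero.2 hy)
  have n2 : b * z - b ≠ 0 := by
    rw [show b * z - b = b * (z - 1) by ring]; exact mul_ne_zero hb (sub_ne_zero.2 hz)
  generalize a * y - a = c at *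
  generalize b * z - b = d at *
  refine ⟨c * d * (X q y * X q z - 1) / q,
    div_ne_zero (mul_ne_zero (mul_ne_zero n1 n2) (sub_ne_zero.2 hx)) h0, ?_⟩
  have e := X_mul (q := q) hx
  convert s using 1
  · ring
  · field_simp
    linear_combination e

/-- The implemented weights form a closed set. -/
theorem cl_im (hq : q ≠ 0 ∧ q ≠ 1) : Cl q fun y => Im q v y ∧ y ≠ 1 :=
  ⟨fun _ h => h.2, fun _ _ h h' hh => ⟨h.1.mul hq h'.1, hh⟩,
    fun _ _ h h' hh => ⟨h.1.ser hq h'.1 h.2 h'.2 hh, X_ne hq.1 hh⟩⟩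

theorem Cl.dl (h : Cl q I) (hq : q ≠ 0) (hy : I y) : Dl q I (X q y) :=
  ⟨X_ne hq (h.ne y hy), by rwa [X_X hq (h.ne y hy)]⟩

/-- Duality. -/
theorem Cl.dual (h : Cl q I) (hq : q ≠ 0) : Cl q (Dl q I) := by
  refine ⟨fun _ a => a.1, fun y z a b c => ⟨c, ?_⟩, fun y z a b c => ⟨X_ne hq c, ?_⟩⟩
  · have := h.ser _ _ a.2 b.2
    rw [X_X hq a.1, X_X hq b.1] at this
    exact this c
  · rw [X_X hq c]
    exact h.par _ _ a.2 b.2 c

theorem Cl.pow (h : Cl q I) (hy : I y) (h1 : |y| ≠ 1) (j : ℕ) : I (y ^ (j + 1)) := by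
  induction j with
  | zero => simpa using hy
  | succ j ih =>
    rw [pow_succ]
    refine h.par _ _ ih hy fun e => h1 ?_
    rw [← pow_succ] at e
    have := congrArg abs e
    rw [abs_pow, abs_one] at this
    exact (pow_eq_one_iff_of_nonneg (abs_nonneg y) (by omega)).1 this

theorem Cl.big (h : Cl q I) (hy : I y) (h1 : 1 < |y|) : Big I :=
  ⟨y ^ 2, h.pow hy h1.ne' 1, by rw [← sq_abs]; nlinarith⟩

theorem Big.of_dual (hq : 0 < q) (h : Big (Dl q I)) : Big I :=
  let ⟨_, a, b⟩ := h; ⟨_, a.2, X_gt hq b⟩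

theorem Big.dual (h : Big I) (hc : Cl q I) (hq : 0 < q) : Big (Dl q I) :=
  let ⟨_, a, b⟩ := h; ⟨_, hc.dl hq.ne' a, X_gt hq b⟩

theorem S_Eng.hard (h : S_Eng) (hq : q ≠ 0 ∧ q ≠ 1) (hc : HC fun y => Im q v y ∧ y ≠ 1) :
    Hard q v :=
  let ⟨⟨y, a, b⟩, z, c, d, e⟩ := hc; h q v y z hq.1 hq.2 a.1 b c.1 d e

end Pool.Agent.P.MP_e0c037_lc.WP
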