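import Pool.Agent.P.MP_e0c037_lc.WP.Base
import Pool.Agent.P.MP_e0c037_lc.SG.Final
import Pool.Agent.P.MP_e0c037_lc.FL.Final

/-! The parts put together. -/

namespace Pool.Agent.P.MP_e0c037_lc.WP

open Finset Pool.Agent.Lib.helper21 SG

theorem easy_all (hT : S_Triv) (hD : S_Dia) (hI : S_Int) (h2 : S_Two) (h4 : S_Four) {q v : ℝ}
    (h : EasyPt q v) : InP q v := by
  rcases h with h | h | h | h | ⟨r, a, b, rfl, c, d⟩ | ⟨a, b, c⟩ | ⟨⟨k, rfl⟩, h⟩ | ⟨rfl, h⟩ |
    ⟨rfl, rfl⟩ | ⟨a, b⟩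
  · exact (hT q v (Or.inl h)).tm
  · exact (hT q v (Or.inr (Or.inl h))).tm
  · exact (hT q v (Or.inr (Or.inr (Or.inl h)))).tm
  · exact (hT q v (Or.inr (Or.inr (Or.inr h)))).tm
  · exact hD r v a b c d
  · exact (easy_seg a b.le c).tm
  · rcases Nat.eq_zero_or_pos k with rfl | hk
    · exact (hT _ v (Or.inr (Or.inr (Or.inl (by simp))))).tm
    refine Easy.tm ?_
    rcases h with h | h
    · refine ⟨fun G => (-1) ^ G.2.length, by fun_prop, fun G hG => ?_⟩
      have := (hI k v G hk hG).2 h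
      rcases Nat.even_or_odd G.2.length with e | e
      · rw [e.neg_one_pow, one_mul] at this
        dsimp only
        rw [e.neg_one_pow, sign_pos this]; rfl
      · rw [e.neg_one_pow] at this
        dsimp only
        rw [e.neg_one_pow, sign_neg (by linarith)]; rfl
    · exact ⟨fun _ => 1, PT.const _, fun G hG => by rw [sign_pos ((hI k v G hk hG).1 h)]; rfl⟩
  · rcases h with rfl | rfl
    exacts [h2.1.tm, h2.2.tm]
  · exact Easy.tm h4
  · obtain ⟨f, h1, h2⟩ := FL.polytime_large a b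
    exact ⟨f, h1, fun n L hL => (h2 n L hL).1⟩

theorem hard_all (h1 : S_HLow) (h2 : S_HRest) {q v : ℝ} (he : ¬ EasyPt q v) (hl : ¬ LeftPt q v) :
    Hard q v := by
  rcases lt_trichotomy q 0 with h | h | h
  · exact h2 q v (Or.inl h) he hl
  · exact absurd (Or.inr (Or.inr (Or.inl h))) he
  · rcases lt_or_ge q 2 with h' | h'
    exacts [h1 q v h h' he hl, h2 q v (Or.inr h') he hl]

end Pool.Agent.P.MP_e0c037_lc.WP
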