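import Pool.Agent.P.MP_e0c037_lc.WP.Glue
import Pool.Agent.P.MP_e0c037_lc.WP.Sets
import Pool.Agent.P.MP_e0c037_lc.BD.R3D

/-! The criterion by the sign of flow polynomials. -/

namespace Pool.Agent.P.MP_e0c037_lc.WP

open Finset Pool.Agent.Lib.helper21 SG R3

theorem flow_mix {q v : ℝ} (hq : 0 < q) (hv : v < -q) (h : FlowNonneg q) {N : ℕ}
    (E : List (ℕ × ℕ)) : ∀ E', ValU N E → ValU N E' →
      0 ≤ (-1) ^ E.length * Zw q N (U 1 v E ++ U (-1) q E') ∧
      0 < (-1) ^ E.length * Zw q N (U 1 v E) := by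
  induction E with
  | nil =>
    intro E' _ h2
    have := h N E' h2
    rw [flow_eq] at this
    exact ⟨by simpa [U] using this, by simp [U, Zw_nil, pow_pos hq]⟩
  | cons e E ih =>
    intro E' h1 h2
    obtain ⟨⟨a, b⟩, c⟩ := List.forall_mem_cons.1 h1
    have s1 : v / q < -1 := by rwa [div_lt_iff₀ hq, neg_one_mul]
    have key : ∀ F, ValU N F → Zw q N (U 1 v (e :: E) ++ U (-1) q F) =
        (1 + v / q) * Zw q N (U 1 v E ++ U (-1) q F) +
          v / q * Zw q N (U 1 v E ++ U (-1) q (e :: F)) := fun F hF => by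
      have hL := (ValU.U (a := 1) (b := v) c).append (hF.U (a := -1) (b := q))
      rw [Zw_congr (L := U 1 v E ++ U (-1) q (e :: F))
        (L' := (e.1, e.2, -1, q) :: (U 1 v E ++ U (-1) q F))
        ((ValU.U c).append (ValU.U (List.forall_mem_cons.2 ⟨⟨a, b⟩, hF⟩))) (hL.cons a b)
        (fun l => by simp [U]; ring), Zw_cons hL a b]
      have := Zw_cons (x := q) (a := 1) (b := v) hL a b
      rw [show U 1 v (e :: E) ++ U (-1) q F = (e.1, e.2, 1, v) :: (U 1 v E ++ U (-1) q F) from rfl,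
        this]
      field_simp
      ring
    have i1 := ih E' c h2
    have i2 := (ih (e :: E') c (List.forall_mem_cons.2 ⟨⟨a, b⟩, h2⟩)).1
    have i3 := (ih [e] c (List.forall_mem_cons.2 ⟨⟨a, b⟩, fun _ hh => by simp at hh⟩)).1
    have k2 := key [] fun _ hh => by simp at hh
    simp only [U, List.map_nil, List.append_nil] at k2
    constructor
    · rw [key E' h2, List.length_cons, pow_succ]
      nlinarith [i1.1]
    · rw [List.length_cons, pow_succ]
      simp only [U] at i1 i3 ⊢
      rw [k2]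
      nlinarith [i1.2]

theorem easy_flow {q v : ℝ} (hq : 0 < q) (hv : v < -q) (h : FlowNonneg q) : Easy q v := by
  refine ⟨fun G => (-1) ^ G.2.length, by fun_prop, fun G hG => ?_⟩
  have := (flow_mix hq hv h G.2 [] hG fun _ hh => by simp at hh).2
  rw [show U 1 v G.2 = G.2.map fun e => (e.1, e.2, 1, v) from rfl, ← dichromatic_eq] at this
  rcases Nat.even_or_odd G.2.length with e | e
  · rw [e.neg_one_pow, one_mul] at this
    dsimp only
    rw [e.neg_one_pow, sign_pos this]; rfl
  · rw [e.neg_one_pow] at this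
    dsimp only
    rw [e.neg_one_pow, sign_neg (by linarith)]; rfl

theorem easy_at (hE : ∀ q v, EasyPt q v → InP q v) {q v : ℝ} (h : EasyAt q v) : InP q v := by
  rcases h with h | h | h | h | h | h | h | h | h | h | ⟨a, b, c⟩ | ⟨-, rfl, c⟩
  iterate 10 exact hE q v (by unfold EasyPt; simp only [h, true_or, or_true, and_self])
  · exact (easy_flow (lt_of_lt_of_le (by positivity) a) b c).tm
  · exact BD.FlowPos.inP c

theorem hard_at (hH : ∀ q v, ¬ EasyPt q v → ¬ LeftPt q v → Hard q v) {q v : ℝ}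
    (he : ¬ EasyAt q v) (hl : ¬ LeftAt q v) : Hard q v := by
  by_cases h : 4 + 2 * √2 ≤ q ∧ q < Real.exp 33488 ∧ v ≤ -q
  · obtain ⟨a, b, c⟩ := h
    have hn : ¬ FlowNonneg q := fun hh => by
      rcases c.eq_or_lt with c | c
      · exact hl (Or.inr (Or.inl ⟨c, Or.inr (Or.inr (Or.inr (Or.inr ⟨a, b, hh⟩)))⟩))
      · exact he (by unfold EasyAt; simp only [a, c, hh, true_or, or_true, and_self])
    unfold FlowNonneg at hn
    push Not at hn
    obtain ⟨n, L, hL, h0⟩ := hn
    rw [flow_eq] at h0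
    have : (0 : ℝ) ≤ √2 := Real.sqrt_nonneg 2
    exact fun f hf => reduces cl (by linarith) c hL h0 f hf
  · refine hH q v (fun hh => he ?_) fun hh => ?_
    · rcases hh with hh | hh | hh | hh | hh | hh | hh | hh | hh | hh <;>
        (unfold EasyAt; simp only [hh, true_or, or_true, and_self])
    · rcases hh with hh | ⟨k, k3, rfl, hh | ⟨a, b⟩⟩ | hh
      · exact h hh.2
      · exact hl (Or.inl ⟨k, k3, rfl, hh⟩)
      · by_cases k7 : 7 ≤ k
        · have s : √2 ≤ 3 / 2 := Real.sqrt_le_iff.2 ⟨by norm_num, by norm_num⟩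
          have : (7 : ℝ) ≤ k := by exact_mod_cast k7
          exact h ⟨by linarith, b, a.le⟩
        · refine hl (Or.inr (Or.inl ⟨a, ?_⟩))
          have : k = 3 ∨ k = 4 ∨ k = 5 ∨ k = 6 := by omega
          rcases this with rfl | rfl | rfl | rfl <;> simp
      · exact hl (Or.inr (Or.inr hh))

end Pool.Agent.P.MP_e0c037_lc.WP
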