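import Pool.Agent.P.MP_e0c037_lc.WP.Base

/-! The regions with an elementary sign rule. -/

namespace Pool.Agent.P.MP_e0c037_lc.WP

open Finset Pool.Agent.Lib.helper21 SG

namespace Triv

theorem comps_pos {n : ℕ} (hn : n ≠ 0) (L : List (ℕ × ℕ)) (A : Finset ℕ) : comps n L A ≠ 0 := by
  unfold comps
  have : Nonempty (spanning n L A).ConnectedComponent :=
    ⟨(spanning n L A).connectedComponentMk ⟨0, Nat.pos_of_ne_zero hn⟩⟩
  exact Nat.card_pos.ne'

theorem comps_zero (L : List (ℕ × ℕ)) (A : Finset ℕ) : comps 0 L A = 0 := by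
  unfold comps
  have : IsEmpty (spanning 0 L A).ConnectedComponent :=
    ⟨fun c => c.ind fun x => x.elim0⟩
  exact Nat.card_of_isEmpty

theorem easy_zero (v : ℝ) : Easy 0 v := by
  refine ⟨fun G => cond (decide (G.1 = 0)) 1 0, by fun_prop, fun G hG => ?_⟩
  obtain ⟨n, L⟩ := G
  by_cases hn : n = 0
  · subst hn
    have hL : L = [] := by
      cases L with
      | nil => rfl
      | cons e L => exact absurd (hG e (by simp)).1 (by simp)
    subst hL
    simp [dichromatic, comps_zero]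
  · have : dichromatic n L 0 v = 0 := by
      unfold dichromatic
      exact sum_eq_zero fun A _ => by rw [zero_pow (comps_pos hn L A), zero_mul]
    simp [hn, this]

theorem easy_one (v : ℝ) : Easy 1 v := by
  have key : ∀ G : Inp, dichromatic G.1 G.2 1 v = (v + 1) ^ G.2.length := fun G => by
    unfold dichromatic
    have := Finset.sum_pow_mul_eq_add_pow v 1 (range G.2.length)
    simpa using this
  refine ⟨fun G => ((SignType.sign (v + 1) : SignType) : ℤ) ^ G.2.length, by fun_prop,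
    fun G _ => ?_⟩
  rw [key, sign_pow, SignType.coe_pow]

theorem easy_pos {q v : ℝ} (hq : 0 < q) (hv : 0 ≤ v) : Easy q v := by
  refine ⟨fun _ => 1, PT.const _, fun G _ => ?_⟩
  have : 0 < dichromatic G.1 G.2 q v := by
    unfold dichromatic
    refine sum_pos' (fun A _ => by positivity) ⟨∅, empty_mem_powerset _, ?_⟩
    rw [card_empty, pow_zero, mul_one]
    exact pow_pos hq _
  rw [sign_pos this]
  rfl

theorem easy_neg (h1 : S_R1) (hD : S_Dual) {q v : ℝ} (hq : q < 0) (a : -2 ≤ v) (b : v ≤ 0) :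
    Easy q v := by
  obtain ⟨⟨κ, o1⟩, -, -, -⟩ := hD
  obtain ⟨f, pf, hf⟩ := h1 κ _ q v o1 hq a b
  exact ⟨f, pf, fun G hG => by rw [hf G hG]; simp [dichromatic, Zk]⟩

theorem easy_dual (h1 : S_R1) (h2 : S_Dual2) (hD : S_Dual) {q v : ℝ} (hq : q < 0)
    (a : -q / 2 ≤ v) : Easy q v := by
  obtain ⟨-, ⟨κ, o2⟩, -, -⟩ := hD
  have hv : 0 < v := by linarith
  have b1 : -2 ≤ q / v := by rw [le_div_iff₀ hv]; linarith
  have b2 : q / v < 0 := div_neg_of_neg_of_pos hq hv
  have b3 : v / q < 0 := div_neg_of_pos_of_neg hv hq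
  obtain ⟨f, pf, hf⟩ := h1 κ _ q (q / v) o2 hq b1 b2.le
  refine ⟨fun G => (-1) ^ G.2.length * f G, by fun_prop, fun G hG => ?_⟩
  dsimp only
  rw [h2 G q v hq.ne hv.ne', sign_mul, hf G hG, SignType.coe_mul, sign_pow, sign_neg b3,
    SignType.coe_pow]
  rfl

end Triv

open Triv

theorem p_Triv (h1 : S_R1) (h2 : S_Dual2) (hD : SG.S_Dual) : S_Triv := by
  intro q v h
  by_cases h0 : q = 0
  · rw [h0]; exact easy_zero v
  rcases h with ⟨a, b | b⟩ | ⟨a, b⟩ | a | a
  · exact easy_neg h1 hD (lt_of_le_of_ne a h0) b.1 b.2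
  · exact easy_dual h1 h2 hD (lt_of_le_of_ne a h0) b
  · exact easy_pos (lt_of_le_of_ne a (Ne.symm h0)) b
  · exact absurd a h0
  · rw [a]; exact Triv.easy_one v

end Pool.Agent.P.MP_e0c037_lc.WP
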